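import Pool.Agent.Helper88.D4.Stmts2
import Pool.Agent.Helper12.D4.Ai

/-!
# Project D4 (MP_e1889a_ag): assembly of the theorem for 1-forms and 2-forms
-/

set_option autoImplicit false

namespace Pool.Agent.Helper88.D4

open Module Filter Topology Pool.Agent.Helper37.SD Pool.Agent.Helper20.TS

variable {K : Type} [Field K] [Algebra ℂ K]

theorem IsMinF.toMin {R : Subalgebra ℂ K} {ξ : Derivation ℂ K K} {J : Bra K} {v : RVal K}
    {a V : ℝ} (h : IsMinF R ξ J v a V) : IsMin R ξ J v a V where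
  wt := h.wt
  vol := h.vol
  apos := h.apos
  vpos := h.vpos
  min := fun w a' V' hc hl hV => h.min w a' V' hc hl fun ε hε => (hV ε hε).frequently

theorem Tor.xi_apply {r : ℕ} {R : Subalgebra ℂ K} {ξ : Derivation ℂ K K}
    {H : Fin r → Derivation ℂ K K} {c : Fin r → ℝ} (hT : Tor R ξ H c) (x : K) :
    ξ x = ∑ i, (c i : ℂ) • H i x := by
  conv_lhs => rw [hT.xi]
  rw [der_sum_apply]
  rfl

theorem Tor.xi_w {r : ℕ} {R : Subalgebra ℂ K} {ξ : Derivation ℂ K K}
    {H : Fin r → Derivation ℂ K K} {c : Fin r → ℝ} (hT : Tor R ξ H c) {m : Fin r → ℤ} {x : K}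
    (hx : IsW H m x) : ξ x = ((∑ i, c i * m i : ℝ) : ℂ) • x := by
  rw [hT.xi_apply]
  push_cast
  rw [Finset.sum_smul]
  refine Finset.sum_congr rfl fun i _ => ?_
  rw [hx i, smul_smul]

theorem Tor.xi_inv {r : ℕ} {R : Subalgebra ℂ K} {ξ : Derivation ℂ K K}
    {H : Fin r → Derivation ℂ K K} {c : Fin r → ℝ} (hT : Tor R ξ H c) {h : K}
    (hh : ∀ i, H i h = 0) : ξ h = 0 := by
  rw [hT.xi_apply]
  exact Finset.sum_eq_zero fun i _ => by rw [hh i, smul_zero]

theorem Al.xi_wt {r : ℕ} {R : Subalgebra ℂ K} {ξ : Derivation ℂ K K}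
    {H : Fin r → Derivation ℂ K K} {c : Fin r → ℝ} (hT : Tor R ξ H c) {χ : Fin r → ℤ}
    {α : One K} (hα : Al R ξ H χ α) (D : Derivation ℂ K K) :
    ξ (α D) - α ⁅ξ, D⁆ = ((∑ i, c i * χ i : ℝ) : ℂ) • α D := by
  have e : ⁅ξ, D⁆ = ∑ i, (c i : ℂ) • ⁅H i, D⁆ := by
    ext x
    rw [Derivation.commutator_apply, hT.xi_apply, hT.xi_apply, der_sum_apply, map_sum,
      ← Finset.sum_sub_distrib]
    refine Finset.sum_congr rfl fun i _ => ?_
    rw [Derivation.smul_apply, Derivation.commutator_apply, Derivation.map_smul, smul_sub]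
  have e2 : α (∑ i, (c i : ℂ) • ⁅H i, D⁆) = ∑ i, (c i : ℂ) • α ⁅H i, D⁆ := by
    rw [map_sum]
    refine Finset.sum_congr rfl fun i _ => ?_
    rw [← algebraMap_smul K (c i : ℂ) ⁅H i, D⁆, map_smul, algebraMap_smul]
  rw [hT.xi_apply, e, e2, ← Finset.sum_sub_distrib]
  push_cast
  rw [Finset.sum_smul]
  refine Finset.sum_congr rfl fun i _ => ?_
  rw [← smul_sub, hα.wt i D, smul_smul]

theorem cm_n (hA : S_A) (hAn : S_An) (hB : S_B1n) (hQ : S_Q) (hP : S_P) (hPn : S_Pn) : S_CMn := by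
  intro K _ _ R ξ J v a V r H c hC hM hX hT hr χ α hα hχ
  by_cases hj : ∃ j, α (H j) ≠ 0
  · rcases hX with hX | hX
    · exact hA K R ξ J v a V r H c hC hM.toMin hX hT χ α hα hχ hj
    · exact hAn K R ξ J v a V r H c hC hM.toMin hX.1 hT χ α hα hχ hj
  · push Not at hj
    by_contra hcon
    have hlt := lt_of_not_ge hcon
    obtain ⟨h, hh, hcst, b, hb⟩ := hB K R ξ J v a V r H c hC hM hT hr χ α hα hχ hj hlt
    set k : ℝ := ∑ i, c i * χ i with hk
    have hξh : ξ h = 0 := hT.xi_inv hh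
    obtain ⟨D, hD⟩ : ∃ D, α D ≠ 0 := by
      by_contra hall
      push Not at hall
      exact hα.ne (LinearMap.ext hall)
    have hb0 : b ≠ 0 := by
      rintro rfl
      exact hD (by rw [hb, zero_mul])
    have hDh : D h ≠ 0 := fun h0 => hD (by rw [hb, h0, mul_zero])
    have hξb : ξ b = (k : ℂ) • b := by
      have e := Al.xi_wt hT hα D
      rw [hb, hb, Derivation.commutator_apply, hξh, map_zero, sub_zero, Derivation.leibniz,
        smul_eq_mul, smul_eq_mul] at e
      have e2 : ξ b * D h = ((k : ℂ) • b) * D h := by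
        rw [smul_mul_assoc, ← e]
        ring
      exact mul_right_cancel₀ hDh e2
    apply hcon
    rcases hX with hX | hX
    · obtain ⟨l, f, g, m, hl, hf, hg, hf0, hg0, hfm, hgm, hfg, hm, hcop⟩ :=
        hQ K R ξ J a r H c hC hX hT h hh hcst
      have hh0 : h ≠ 0 := by
        rintro rfl
        exact hcst ⟨0, by rw [map_zero]⟩
      have hlK : (l : K) ≠ 0 := by
        have : CharZero K := charZero_of_injective_algebraMap (algebraMap ℂ K).injective
        exact_mod_cast hl.ne'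
      have hcfg : ¬ Cst (f / g) := by
        rintro ⟨t, ht⟩
        rw [← hfg] at ht
        refine hcst (Pool.Agent.Helper12.D4.cst_of_algebraic
          ⟨Polynomial.X ^ l - Polynomial.C t, Polynomial.X_pow_sub_C_ne_zero hl t, ?_⟩)
        rw [map_sub, map_pow, Polynomial.aeval_X, Polynomial.aeval_C, ht, sub_self]
      refine hP K R ξ J v a V hC hM.toMin f g (b / (l * h ^ (l - 1))) _ k α hf hg hf0 hg0 hm
        (hT.xi_w hfm) (hT.xi_w hgm) hcop hcfg (div_ne_zero hb0 (mul_ne_zero hlK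
          (pow_ne_zero _ hh0))) ?_ ?_ hα.reg
      · rw [der_div ξ _ _ (mul_ne_zero hlK (pow_ne_zero _ hh0))]
        have e1 : ξ ((l : K) * h ^ (l - 1)) = 0 := by
          rw [Derivation.leibniz, Derivation.leibniz_pow, hξh, smul_zero, smul_zero, smul_zero,
            Derivation.map_natCast, smul_zero, add_zero]
        rw [e1, mul_zero, sub_zero, hξb, mul_div_mul_left _ _ (mul_ne_zero hlK
          (pow_ne_zero _ hh0)), smul_div_assoc]
      · intro D'
        rw [← hfg, Derivation.leibniz_pow, hb, smul_eq_mul, nsmul_eq_mul]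
        field_simp
    · exact hPn K R ξ J v a V hC hM h b k α hξh hcst (hX.2 h hξh hcst) hb0 hξb hb hα.reg

theorem fm_n (hT1 : S_T1) (hT2 : S_T2) (hCM : S_CMn) : S_FMn := by
  intro K _ _ R ξ J v a V r H c hC hM hX hT hr ω k hreg hcl hhom hω hk
  by_contra hcon
  have hlt := lt_of_not_ge hcon
  obtain ⟨ω', χ, hreg', hcl', hω', hhom', hχ⟩ :=
    hT1 K R ξ J a r H c hC hT ω k hreg hcl hhom hω
  rw [← hχ] at hk hlt hcon
  obtain ⟨α, hα⟩ := hT2 K R ξ J a r H c hC hT ω' χ hreg' hcl' hω' hhom' hk hlt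
  exact hcon (hCM K R ξ J v a V r H c hC hM hX hT hr χ α hα hk)

end Pool.Agent.Helper88.D4
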