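import Pool.Agent.Helper88.D4.Defs

/-!
# Project D4 (MP_e1889a_ag): statements of the pieces
-/

set_option autoImplicit false

namespace Pool.Agent.Helper88.D4

open Module Filter Topology Pool.Agent.Helper37.SD Pool.Agent.Helper20.TS

section Notions

variable {K : Type} [Field K] [Algebra ℂ K]

/-- `[f 0, f 1, f 2, f 3]` -/
def brk (J : Bra K) (f : Fin 4 → K) : K := J (f 1) (f 2) (f 3) (f 0)

/-- `det (D i (f j))` -/
noncomputable def dt (D : Fin 4 → Derivation ℂ K K) (f : Fin 4 → K) : K :=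
  (Matrix.of fun i j => D i (f j)).det

/-- The dual frame of `z`. -/
noncomputable def dfr (J : Bra K) (z : Fin 4 → K) : Fin 4 → Derivation ℂ K K :=
  ![(brk J z)⁻¹ • J (z 1) (z 2) (z 3), -(brk J z)⁻¹ • J (z 0) (z 2) (z 3),
    (brk J z)⁻¹ • J (z 0) (z 1) (z 3), -(brk J z)⁻¹ • J (z 0) (z 1) (z 2)]

/-- `x` is a constant. -/
def Cst (x : K) : Prop := ∃ t : ℂ, x = algebraMap ℂ K t

/-- The elements of `R` of weight `m`. -/
def Wsp {r : ℕ} (R : Subalgebra ℂ K) (H : Fin r → Derivation ℂ K K) (m : Fin r → ℤ) :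
    Submodule ℂ K where
  carrier := {y | y ∈ R ∧ IsW H m y}
  add_mem' := fun {x y} hx hy => ⟨R.add_mem hx.1 hy.1, fun i => by
    rw [map_add, hx.2 i, hy.2 i, smul_add]⟩
  zero_mem' := ⟨R.zero_mem, fun i => by rw [map_zero, smul_zero]⟩
  smul_mem' := fun z x hx => ⟨R.smul_mem hx.1 z, fun i => by
    rw [Derivation.map_smul, hx.2 i, smul_comm]⟩

/-- `u x ≥ min` of the values of the components of weight `c` for the derivation `H`, with equality: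
`u` is homogeneous. -/
def HomVal (R : Subalgebra ℂ K) (H : Derivation ℂ K K) (u : RVal K) : Prop :=
  ∀ (S : Finset ℝ) (y : ℝ → K), (∀ c ∈ S, y c ∈ R ∧ H (y c) = (c : ℂ) • y c) →
    ∑ c ∈ S, y c ≠ 0 → ∀ c ∈ S, y c ≠ 0 → u.val (∑ c ∈ S, y c) ≤ u.val (y c)

/-- The divisor of `F` is a multiple of the prime divisor `u`. -/
def DivMul (R : Subalgebra ℂ K) (u : RVal K) (F : K) : Prop := F ∈ R ∧ F ≠ 0 ∧ 0 < u.val F ∧
  ∀ u', PDiv R u' → 0 < u'.val F → ∀ x, x ≠ 0 → u'.val x = u.val x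

/-- `α = i_Z i_{H 0} i_{H 1} Ω` up to a constant, where `Ω` is the volume form dual to `J`. -/
def IsZ (J : Bra K) (H : Fin 2 → Derivation ℂ K K) (α : One K) (Z : Derivation ℂ K K) : Prop :=
  ∀ (D : Derivation ℂ K K) (f : Fin 4 → K), α D * brk J f = dt ![Z, H 0, H 1, D] f

/-- The Wronskian of `f` for `Z`. -/
noncomputable def wr (Z : Derivation ℂ K K) {n : ℕ} (f : Fin n → K) : K :=
  (Matrix.of fun (i j : Fin n) => (Z : K → K)^[i] (f j)).det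

end Notions

/-! ## Package J: brackets -/

/-- all 4-forms are proportional -/
def S_JD : Prop := ∀ (K : Type) [Field K] [Algebra ℂ K] (J : Bra K), Algebra.trdeg ℂ K = 4 →
  IsAlt J → ∀ (D : Fin 4 → Derivation ℂ K K) (f g : Fin 4 → K),
    brk J f * dt D g = brk J g * dt D f

/-- algebraically independent functions and the dual frame -/
def S_AI : Prop := ∀ (K : Type) [Field K] [Algebra ℂ K] (J : Bra K), Algebra.trdeg ℂ K = 4 →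
  IsAlt J → (∀ z : Fin 4 → K, AlgebraicIndependent ℂ z ↔ brk J z ≠ 0) ∧
    (∀ z : Fin 4 → K, brk J z ≠ 0 → (∀ i j, dfr J z i (z j) = if i = j then 1 else 0) ∧
      ∀ E : Derivation ℂ K K, E = ∑ i, E (z i) • dfr J z i) ∧
    ∀ h : K, ¬ Cst h → ∃ x y z, J x y z h ≠ 0

/-- `A (ord_D) ≤ 1` -/
def S_LDpd : Prop := ∀ (K : Type) [Field K] [Algebra ℂ K] (R : Subalgebra ℂ K)
  (ξ : Derivation ℂ K K) (J : Bra K) (a : ℝ), Cone4 R ξ J a → ∀ u, PDiv R u → LDLe J u 1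

/-- tame extension of logarithmic derivations -/
def S_TAME : Prop := ∀ (K : Type) [Field K] [Algebra ℂ K], Algebra.trdeg ℂ K = 4 →
  ∀ (u : RVal K), DVal u → ∀ (y : Fin 3 → K), RInd u y → ∀ g : K, g ≠ 0 → 0 < u.val g →
    ∀ D : Derivation ℂ K K, u.Ge (u.val g) (D g) → (∀ i, u.Ge 0 (D (y i))) → LogDer u D

/-- the log discrepancy from a frame -/
def S_LDfr : Prop := ∀ (K : Type) [Field K] [Algebra ℂ K] (J : Bra K), Algebra.trdeg ℂ K = 4 →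
  IsAlt J → ∀ (u : RVal K), DVal u → ∀ (y : Fin 3 → K), RInd u y → ∀ g : K, g ≠ 0 → 0 < u.val g →
    J (y 0) (y 1) (y 2) g ≠ 0 ∧ LDLe J u (u.val g - u.val (J (y 0) (y 1) (y 2) g))

/-- frames at a prime divisor with a given uniformiser -/
def S_UN : Prop := ∀ (K : Type) [Field K] [Algebra ℂ K] (R : Subalgebra ℂ K)
  (ξ : Derivation ℂ K K) (J : Bra K) (a : ℝ), Cone4 R ξ J a → ∀ u, PDiv R u → ∀ p : K, p ≠ 0 →
    u.val p = 1 → ∃ x ∈ R, ∃ y ∈ R, ∃ z ∈ R, J x y z p ≠ 0 ∧ u.val (J x y z p) = 0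

/-- residues are constants -/
def S_CL : Prop := ∀ (K : Type) [Field K] [Algebra ℂ K] (R : Subalgebra ℂ K)
  (ξ : Derivation ℂ K K) (J : Bra K) (a : ℝ), Cone4 R ξ J a → ∀ u, PDiv R u → ∀ p : K, p ≠ 0 →
    u.val p = 1 → ∀ y : Fin 3 → K, (∀ i, u.Ge 0 (y i)) → J (y 0) (y 1) (y 2) p ≠ 0 →
      u.val (J (y 0) (y 1) (y 2) p) = 0 → ∀ c : K, u.Ge 0 c → (∀ i j, u.Ge 1 (J c (y i) (y j) p)) →
        ∃ t : ℂ, u.Ge 1 (c - algebraMap ℂ K t)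

/-- regular 1-forms at a prime divisor -/
def S_REG : Prop := ∀ (K : Type) [Field K] [Algebra ℂ K] (R : Subalgebra ℂ K)
  (ξ : Derivation ℂ K K) (J : Bra K) (a : ℝ), Cone4 R ξ J a → ∀ α : One K,
    (Reg1 R α → ∀ u, PDiv R u → ∀ x y z, u.Ge 0 x → u.Ge 0 y → u.Ge 0 z → u.Ge 0 (α (J x y z))) ∧
    ((∀ u, PDiv R u → ∀ x ∈ R, ∀ y ∈ R, ∀ z ∈ R, u.Ge 0 (α (J x y z))) → Reg1 R α)

/-- the square of a regular 2-form -/
def S_PF : Prop := ∀ (K : Type) [Field K] [Algebra ℂ K] (R : Subalgebra ℂ K)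
  (ξ : Derivation ℂ K K) (J : Bra K) (a : ℝ), Cone4 R ξ J a → ∀ ω : Form K, IsReg R ω →
    ∃ c ∈ R, (∀ D f, c * dt D f = brk J f * pf ω D) ∧
      ∀ k : ℝ, HomForm ξ k ω → ξ c = ((2 * k - a : ℝ) : ℂ) • c

/-- a 2-form whose square is the volume form is nondegenerate -/
def S_ND : Prop := ∀ (K : Type) [Field K] [Algebra ℂ K] (R : Subalgebra ℂ K)
  (ξ : Derivation ℂ K K) (J : Bra K) (a : ℝ), Cone4 R ξ J a → ∀ ω : Form K, IsReg R ω →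
    ∀ t : ℂ, t ≠ 0 → (∀ D f, algebraMap ℂ K t * dt D f = brk J f * pf ω D) → IsNondeg R ω

/-! ## Package V: volumes -/

/-- V-c: a valuation which is not negative on `R` and one homogeneous function -/
def S_T0 : Prop := ∀ (K : Type) [Field K] [Algebra ℂ K] (R : Subalgebra ℂ K)
  (ξ : Derivation ℂ K K) (J : Bra K) (v : RVal K) (a V : ℝ), Cone4 R ξ J a → IsMin R ξ J v a V →
    ∀ (u : RVal K) (c : ℝ), (∀ x ∈ R, x ≠ 0 → 0 ≤ u.val x) → LDLe J u c →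
      0 ≤ c ∧ ∀ (F : K) (δ : ℝ), F ∈ R → F ≠ 0 → ξ F = (δ : ℂ) • F → a * u.val F ≤ 4 * δ * c

/-- V-d: two homogeneous functions -/
def S_V3 : Prop := ∀ (K : Type) [Field K] [Algebra ℂ K] (R : Subalgebra ℂ K)
  (ξ : Derivation ℂ K K) (J : Bra K) (v : RVal K) (a V : ℝ), Cone4 R ξ J a → IsMin R ξ J v a V →
    ∀ (u : RVal K) (c : ℝ), (∀ x ∈ R, x ≠ 0 → 0 ≤ u.val x) → LDLe J u c →
      ∀ (f g : K) (N e : ℝ), f ∈ R → g ∈ R → f ≠ 0 → g ≠ 0 → 0 < N → ξ f = (N : ℂ) • f →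
        ξ g = (N : ℂ) • g → (∀ x ∈ R, ∀ y ∈ R, g * x = f * y → ∃ z ∈ R, x = f * z) → 0 ≤ e →
          e ≤ u.val f → e ≤ u.val g → a * e ≤ 2 * N * c

/-- V-e: a torus direction -/
def S_V4 : Prop := ∀ (K : Type) [Field K] [Algebra ℂ K] (R : Subalgebra ℂ K)
  (ξ : Derivation ℂ K K) (J : Bra K) (v : RVal K) (a V : ℝ), Cone4 R ξ J a → IsMin R ξ J v a V →
    ∀ (H : Derivation ℂ K K), ⁅ξ, H⁆ = 0 →
      (∀ x ∈ R, x ∈ Submodule.span ℂ {y | y ∈ R ∧ ∃ c : ℝ, ∃ i : ℕ, ξ y = (c : ℂ) • y ∧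
        H y = (i : ℂ) • y}) → HomBra H 1 J →
      ∀ (F : K) (δ : ℝ) (l : ℕ), F ∈ R → F ≠ 0 → 0 < l → ξ F = (δ : ℂ) • F → H F = (l : ℂ) • F →
        (∀ x ∈ R, ∀ i : ℕ, H x = (i : ℂ) • x → l ≤ i → ∃ y ∈ R, x = F * y) → 4 * δ ≤ a * l

/-! ## Package EX: divisorial valuations -/

/-- a normal ring is the intersection of the valuation rings of its prime divisors -/
def S_EX1 : Prop := ∀ (K : Type) [Field K] [Algebra ℂ K] (R : Subalgebra ℂ K), IsFrac R → R.FG →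
  Normal R → ∀ x : K, x ∉ R → ∃ u, PDiv R u ∧ u.val x < 0

/-- the same for the integral closure of `R ⊗ ℂ(h)` -/
def S_EX2 : Prop := ∀ (K : Type) [Field K] [Algebra ℂ K] (R : Subalgebra ℂ K), IsFrac R → R.FG →
  Normal R → Algebra.trdeg ℂ K = 4 → ∀ h : K, ¬ Cst h → ∀ x : K, ¬ IsIntegral (Ah R h) x →
    ∃ u : RVal K, DVal u ∧ u.val x < 0 ∧ (∀ y ∈ Ah R h, y ≠ 0 → 0 ≤ u.val y) ∧
      (∃ y z, y ∈ Ah R h ∧ z ∈ Ah R h ∧ RInd u ![h, y, z]) ∧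
      ∀ g ∈ R, g ≠ 0 → h * g ∈ R → u.val g = 0 → PDiv R u

/-! ## Package H: homogeneous prime divisors -/

/-- a homogeneous uniformiser -/
def S_HT : Prop := ∀ (K : Type) [Field K] [Algebra ℂ K] (R : Subalgebra ℂ K)
  (ξ : Derivation ℂ K K) (r : ℕ) (H : Fin r → Derivation ℂ K K) (c : Fin r → ℝ), IsCone R ξ →
    Tor R ξ H c → ∀ u, PDiv R u → ∀ (s : K) (m : Fin r → ℤ), s ∈ R → s ≠ 0 → IsW H m s →
      0 < u.val s → ∃ t ∈ R, t ≠ 0 ∧ (∃ m', IsW H m' t) ∧ u.val t = 1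

/-- the equation of a homogeneous prime divisor is homogeneous -/
def S_HF : Prop := ∀ (K : Type) [Field K] [Algebra ℂ K] (R : Subalgebra ℂ K)
  (ξ : Derivation ℂ K K) (r : ℕ) (H : Fin r → Derivation ℂ K K) (c : Fin r → ℝ), IsCone R ξ →
    Normal R → Tor R ξ H c → ∀ u, PDiv R u → ∀ (s : K) (m : Fin r → ℤ), s ∈ R → s ≠ 0 →
      IsW H m s → 0 < u.val s → ∀ F, DivMul R u F → ∃ m', IsW H m' F

/-! ## Package A -/

/-- regular invariant 1-forms vanish on the torus -/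
def S_TR : Prop := ∀ (K : Type) [Field K] [Algebra ℂ K] (R : Subalgebra ℂ K)
  (ξ : Derivation ℂ K K) (J : Bra K) (a : ℝ) (r : ℕ) (H : Fin r → Derivation ℂ K K)
  (c : Fin r → ℝ), Cone4 R ξ J a → Tor R ξ H c → ∀ η : One K, Reg1 R η →
    (∀ i D, H i (η D) = η ⁅H i, D⁆) → (∀ i, Cst (η (H i))) → ∀ i, η (H i) = 0

/-- case A -/
def S_A : Prop := ∀ (K : Type) [Field K] [Algebra ℂ K] (R : Subalgebra ℂ K)
  (ξ : Derivation ℂ K K) (J : Bra K) (v : RVal K) (a V : ℝ) (r : ℕ)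
  (H : Fin r → Derivation ℂ K K) (c : Fin r → ℝ), Cone4 R ξ J a → IsMin R ξ J v a V → QFac R →
    Tor R ξ H c → ∀ (χ : Fin r → ℤ) (α : One K), Al R ξ H χ α → ∑ i, c i * χ i ≠ 0 →
      (∃ j, α (H j) ≠ 0) → a ≤ 2 * ∑ i, c i * χ i

/-! ## Package B1 -/

/-- the torus acts generically freely -/
def S_B0 : Prop := ∀ (K : Type) [Field K] [Algebra ℂ K] (R : Subalgebra ℂ K)
  (ξ : Derivation ℂ K K) (r : ℕ) (H : Fin r → Derivation ℂ K K) (c : Fin r → ℝ), IsFrac R →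
    Tor R ξ H c → LinearIndependent K H

/-- large weight spaces -/
def S_CNT : Prop := ∀ (K : Type) [Field K] [Algebra ℂ K] (R : Subalgebra ℂ K)
  (ξ : Derivation ℂ K K) (J : Bra K) (v : RVal K) (a V : ℝ) (r : ℕ)
  (H : Fin r → Derivation ℂ K K) (c : Fin r → ℝ), Cone4 R ξ J a → IsMin R ξ J v a V →
    Tor R ξ H c → 1 ≤ r → r ≤ 3 → ∀ B : ℝ, ∃ m : Fin r → ℤ, 0 < ∑ i, c i * m i ∧
      B * (∑ i, c i * m i + 1) ^ (3 - r) < (finrank ℂ (Wsp R H m) : ℝ) ∧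
      Module.Finite ℂ (Wsp R H m)

/-- `Z` given by two homogeneous functions -/
def S_Z : Prop := ∀ (K : Type) [Field K] [Algebra ℂ K] (J : Bra K)
  (H : Fin 2 → Derivation ℂ K K) (α : One K), Algebra.trdeg ℂ K = 4 → IsAlt J →
    LinearIndependent K H → (∀ i, α (H i) = 0) → ∀ (x y : K) (m m' : Fin 2 → ℤ), x ≠ 0 → y ≠ 0 →
      IsW H m x → IsW H m' y → m 0 * m' 1 ≠ m 1 * m' 0 →
        ∃ (t : ℂ) (Z : Derivation ℂ K K), t ≠ 0 ∧ IsZ J H α Z ∧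
          ∀ φ, Z φ = t • (α (J φ x y) / (x * y))

/-- `Z` is unique up to the torus -/
def S_Zu : Prop := ∀ (K : Type) [Field K] [Algebra ℂ K] (J : Bra K)
  (H : Fin 2 → Derivation ℂ K K) (α : One K), Algebra.trdeg ℂ K = 4 → IsAlt J →
    LinearIndependent K H → ∀ Z Z', IsZ J H α Z → IsZ J H α Z' →
      ∃ a b : K, Z' = Z + a • H 0 + b • H 1

/-- the Wronskian does not depend on `Z` -/
def S_WR : Prop := ∀ (K : Type) [Field K] [Algebra ℂ K] (r : ℕ)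
  (H : Fin r → Derivation ℂ K K) (Z Z' : Derivation ℂ K K) (κ : Fin r → ℤ),
    (∀ m φ, IsW H m φ → IsW H (m + κ) (Z φ)) → (∀ m φ, IsW H m φ → IsW H (m + κ) (Z' φ)) →
      ∀ C : (Fin r → ℤ) → K, (∀ m φ, IsW H m φ → Z' φ = Z φ + C m * φ) →
        ∀ (n : ℕ) (f : Fin n → K) (m : Fin r → ℤ), (∀ j, IsW H m (f j)) → wr Z' f = wr Z f

/-- the Wronskian is not zero -/
def S_WN : Prop := ∀ (K : Type) [Field K] [Algebra ℂ K] (r : ℕ)
  (H : Fin r → Derivation ℂ K K) (Z : Derivation ℂ K K) (κ : Fin r → ℤ),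
    (∀ m φ, IsW H m φ → IsW H (m + κ) (Z φ)) → (∀ h, (∀ i, H i h = 0) → Z h = 0 → Cst h) →
      ∀ (n : ℕ) (f : Fin n → K) (m : Fin r → ℤ), (∀ j, IsW H m (f j)) → LinearIndependent ℂ f →
        wr Z f ≠ 0

/-- prime divisors for a torus of rank 2: two independent units, or the order is a function of the
weight -/
def S_PT : Prop := ∀ (K : Type) [Field K] [Algebra ℂ K] (R : Subalgebra ℂ K)
  (ξ : Derivation ℂ K K) (J : Bra K) (a : ℝ) (H : Fin 2 → Derivation ℂ K K) (c : Fin 2 → ℝ),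
    Cone4 R ξ J a → Tor R ξ H c → ∀ (χ w₀ : Fin 2 → ℤ) (α : One K), Al R ξ H χ α →
      (∀ i, HomBra (H i) (w₀ i : ℂ) J) → ∀ u, PDiv R u →
        (∃ (x y : K) (m m' : Fin 2 → ℤ), x ≠ 0 ∧ y ≠ 0 ∧ IsW H m x ∧ IsW H m' y ∧ u.val x = 0 ∧
          u.val y = 0 ∧ m 0 * m' 1 ≠ m 1 * m' 0) ∨
        ∃ ρ : Fin 2 → ℝ, (∀ m φ, φ ≠ 0 → IsW H m φ → u.val φ = ∑ i, ρ i * m i) ∧
          ∑ i, ρ i * w₀ i = 1 ∧ (∑ i, ρ i * χ i = 0 ∨ 1 ≤ ∑ i, ρ i * χ i) ∧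
          ∃ s ∈ R, s ≠ 0 ∧ 0 < u.val s ∧ ∃ m, IsW H m s

/-- the torus weight of the volume form -/
def S_W0 : Prop := ∀ (K : Type) [Field K] [Algebra ℂ K] (R : Subalgebra ℂ K)
  (ξ : Derivation ℂ K K) (J : Bra K) (a : ℝ) (r : ℕ) (H : Fin r → Derivation ℂ K K)
  (c : Fin r → ℝ), Cone4 R ξ J a → Tor R ξ H c →
    ∃ w₀ : Fin r → ℤ, (∀ i, HomBra (H i) (w₀ i : ℂ) J) ∧ ∑ i, c i * w₀ i = a

/-- growth of the weight spaces, rank 2 -/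
def S_W2 : Prop := ∀ (K : Type) [Field K] [Algebra ℂ K] (R : Subalgebra ℂ K)
  (ξ : Derivation ℂ K K) (J : Bra K) (v : RVal K) (a V : ℝ)
  (H : Fin 2 → Derivation ℂ K K) (c : Fin 2 → ℝ), Cone4 R ξ J a → IsMin R ξ J v a V → QFac R →
    Tor R ξ H c → ∀ (χ : Fin 2 → ℤ) (α : One K), Al R ξ H χ α → (∀ i, α (H i) = 0) →
      ∑ i, c i * χ i ≠ 0 → 2 * ∑ i, c i * χ i < a → ∀ Z, IsZ J H α Z →
        (∀ h, (∀ i, H i h = 0) → Z h = 0 → Cst h) → ∃ B : ℝ, ∀ (m : Fin 2 → ℤ),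
          Module.Finite ℂ (Wsp R H m) → 0 < ∑ i, c i * m i →
            (finrank ℂ (Wsp R H m) : ℝ) ≤ B * (∑ i, c i * m i + 1)

/-- B1 -/
def S_B1 : Prop := ∀ (K : Type) [Field K] [Algebra ℂ K] (R : Subalgebra ℂ K)
  (ξ : Derivation ℂ K K) (J : Bra K) (v : RVal K) (a V : ℝ) (r : ℕ)
  (H : Fin r → Derivation ℂ K K) (c : Fin r → ℝ), Cone4 R ξ J a → IsMin R ξ J v a V → QFac R →
    Tor R ξ H c → 2 ≤ r → ∀ (χ : Fin r → ℤ) (α : One K), Al R ξ H χ α → ∑ i, c i * χ i ≠ 0 →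
      (∀ i, α (H i) = 0) → 2 * ∑ i, c i * χ i < a →
        ∃ h, (∀ i, H i h = 0) ∧ ¬ Cst h ∧ ∃ b, ∀ D, α D = b * D h

/-! ## Package B2 -/

/-- an invariant function has a power which is a quotient of coprime functions -/
def S_Q : Prop := ∀ (K : Type) [Field K] [Algebra ℂ K] (R : Subalgebra ℂ K)
  (ξ : Derivation ℂ K K) (J : Bra K) (a : ℝ) (r : ℕ) (H : Fin r → Derivation ℂ K K)
  (c : Fin r → ℝ), Cone4 R ξ J a → QFac R → Tor R ξ H c → ∀ h : K, (∀ i, H i h = 0) → ¬ Cst h →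
    ∃ (l : ℕ) (f g : K) (m : Fin r → ℤ), 0 < l ∧ f ∈ R ∧ g ∈ R ∧ f ≠ 0 ∧ g ≠ 0 ∧ IsW H m f ∧
      IsW H m g ∧ h ^ l = f / g ∧ 0 < ∑ i, c i * m i ∧
      ∀ u, PDiv R u → u.val f = 0 ∨ u.val g = 0

/-- theorem P -/
def S_P : Prop := ∀ (K : Type) [Field K] [Algebra ℂ K] (R : Subalgebra ℂ K)
  (ξ : Derivation ℂ K K) (J : Bra K) (v : RVal K) (a V : ℝ), Cone4 R ξ J a → IsMin R ξ J v a V →
    ∀ (f g b : K) (N k : ℝ) (α : One K), f ∈ R → g ∈ R → f ≠ 0 → g ≠ 0 → 0 < N →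
      ξ f = (N : ℂ) • f → ξ g = (N : ℂ) • g → (∀ u, PDiv R u → u.val f = 0 ∨ u.val g = 0) →
        ¬ Cst (f / g) → b ≠ 0 → ξ b = (k : ℂ) • b → (∀ D, α D = b * D (f / g)) → Reg1 R α →
          a ≤ 2 * k

/-! ## The theorem for 1-forms and 2-forms -/

def S_CM : Prop := ∀ (K : Type) [Field K] [Algebra ℂ K] (R : Subalgebra ℂ K)
  (ξ : Derivation ℂ K K) (J : Bra K) (v : RVal K) (a V : ℝ) (r : ℕ)
  (H : Fin r → Derivation ℂ K K) (c : Fin r → ℝ), Cone4 R ξ J a → IsMin R ξ J v a V → QFac R →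
    Tor R ξ H c → 2 ≤ r → ∀ (χ : Fin r → ℤ) (α : One K), Al R ξ H χ α → ∑ i, c i * χ i ≠ 0 →
      a ≤ 2 * ∑ i, c i * χ i

/-- a component of a 2-form which is homogeneous for the torus -/
def S_T1 : Prop := ∀ (K : Type) [Field K] [Algebra ℂ K] (R : Subalgebra ℂ K)
  (ξ : Derivation ℂ K K) (J : Bra K) (a : ℝ) (r : ℕ) (H : Fin r → Derivation ℂ K K)
  (c : Fin r → ℝ), Cone4 R ξ J a → Tor R ξ H c → ∀ (ω : Form K) (k : ℝ), IsReg R ω → Closed ω →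
    HomForm ξ k ω → ω ≠ 0 → ∃ (ω' : Form K) (χ : Fin r → ℤ), IsReg R ω' ∧ Closed ω' ∧ ω' ≠ 0 ∧
      (∀ i, HomForm (H i) (χ i) ω') ∧ ∑ i, c i * χ i = k

/-- from 2-forms to 1-forms -/
def S_T2 : Prop := ∀ (K : Type) [Field K] [Algebra ℂ K] (R : Subalgebra ℂ K)
  (ξ : Derivation ℂ K K) (J : Bra K) (a : ℝ) (r : ℕ) (H : Fin r → Derivation ℂ K K)
  (c : Fin r → ℝ), Cone4 R ξ J a → Tor R ξ H c → ∀ (ω : Form K) (χ : Fin r → ℤ), IsReg R ω →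
    Closed ω → ω ≠ 0 → (∀ i, HomForm (H i) (χ i) ω) → ∑ i, c i * χ i ≠ 0 →
      2 * ∑ i, c i * χ i < a → ∃ α, Al R ξ H χ α

def S_FM : Prop := ∀ (K : Type) [Field K] [Algebra ℂ K] (R : Subalgebra ℂ K)
  (ξ : Derivation ℂ K K) (J : Bra K) (v : RVal K) (a V : ℝ) (r : ℕ)
  (H : Fin r → Derivation ℂ K K) (c : Fin r → ℝ), Cone4 R ξ J a → IsMin R ξ J v a V → QFac R →
    Tor R ξ H c → 2 ≤ r → ∀ (ω : Form K) (k : ℝ), IsReg R ω → Closed ω → HomForm ξ k ω → ω ≠ 0 →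
      k ≠ 0 → a ≤ 2 * k

/-- the semisimple part of a derivation of degree 0 gives a torus of rank at least 2, or is a
multiple of the Reeb field -/
def S_R1 : Prop := ∀ (K : Type) [Field K] [Algebra ℂ K] (R : Subalgebra ℂ K)
  (ξ : Derivation ℂ K K), IsCone R ξ → ∀ E : Derivation ℂ K K, Pres R E → ⁅ξ, E⁆ = 0 →
    (∃ (r : ℕ) (H : Fin r → Derivation ℂ K K) (c : Fin r → ℝ), 2 ≤ r ∧ Tor R ξ H c) ∨
      ∃ μ : ℂ, ∀ x ∈ R, ∃ n : ℕ, ((E - μ • ξ : Derivation ℂ K K) : K → K)^[n] x = 0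

/-- the case of a multiple of the Reeb field -/
def S_R2 : Prop := ∀ (K : Type) [Field K] [Algebra ℂ K] (R : Subalgebra ℂ K)
  (ξ : Derivation ℂ K K) (J : Bra K) (a : ℝ), Cone4 R ξ J a → ∀ (E : Derivation ℂ K K) (μ : ℂ),
    Pres R E → (∀ x ∈ R, ∃ n : ℕ, ((E - μ • ξ : Derivation ℂ K K) : K → K)^[n] x = 0) →
      HomBra E 2 J → ∀ (ω : Form K) (k : ℝ), IsReg R ω → HomForm ξ k ω → HomForm E 1 ω →
        ω ≠ 0 → 2 * k = a

end Pool.Agent.Helper88.D4
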