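import Pool.Agent.Helper88.D4.Stmts3
import Pool.Agent.Helper20.LT.Main

/-!
# Project D4 (MP_e1889a_ag): the form for germs
-/

set_option autoImplicit false

namespace Pool.Agent.Helper88.D4

open Module Filter Topology IsLocalRing Pool.Agent.Helper37.SD Pool.Agent.Helper20.TS
  Pool.Agent.Helper11.SY Pool.Agent.Helper20.LT

section Notions

variable {R : Type} [CommRing R] [Algebra ℂ R] [IsLocalRing R] {K : Type} [Field K] [Algebra ℂ K]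

/-- `R₀` is the graded ring `gr_w R` of the germ; its elements of degree `c` are the elements `y` with
`ξ y = c y`.  For `w x ≥ c` the element `sym c x` is the class of `x` in degree `c`. -/
structure GrL (w : CVal R) (R₀ : Subalgebra ℂ K) (ξ : Derivation ℂ K K) (sym : ℝ → R → K) :
    Prop where
  add : ∀ (c : ℝ) x y, (c : WithTop ℝ) ≤ w.v x → (c : WithTop ℝ) ≤ w.v y →
    sym c (x + y) = sym c x + sym c y
  mul : ∀ (b c : ℝ) x y, (b : WithTop ℝ) ≤ w.v x → (c : WithTop ℝ) ≤ w.v y →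
    sym (b + c) (x * y) = sym b x * sym c y
  const : ∀ z : ℂ, sym 0 (algebraMap ℂ R z) = algebraMap ℂ K z
  zero_iff : ∀ (c : ℝ) x, (c : WithTop ℝ) ≤ w.v x → (sym c x = 0 ↔ (c : WithTop ℝ) < w.v x)
  mem : ∀ (c : ℝ) x, (c : WithTop ℝ) ≤ w.v x → sym c x ∈ R₀ ∧ ξ (sym c x) = (c : ℂ) • sym c x
  surj : ∀ (c : ℝ), ∀ y ∈ R₀, ξ y = (c : ℂ) • y → ∃ x, (c : WithTop ℝ) ≤ w.v x ∧ sym c x = y

/-- The bracket `J` of `X₀` is the leading term of the 4-vector field `th` dual to `ω² / 2`, whose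
degree is `- A`. -/
def LeadTh (S : Symp R 2) (w : CVal R) (A : ℝ) (sym : ℝ → R → K) (J : Bra K) : Prop :=
  ∀ (F : Fin 4 → R) (c : Fin 4 → ℝ), (∀ i, (c i : WithTop ℝ) ≤ w.v (F i)) →
    brk J (fun i => sym (c i) (F i)) = sym (∑ i, c i - A) (S.th F)

/-- `y` is a homogeneous element of `R`. -/
def IsH (R : Subalgebra ℂ K) (ξ : Derivation ℂ K K) (b : ℝ) (y : K) : Prop :=
  y ∈ R ∧ ξ y = (b : ℂ) • y

/-- `h y` is the Hamiltonian vector field of the homogeneous element `y` of `R`, for a bracket of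
degree `- s`; the divergence of `h y` is `0`. -/
structure IsPoi (R : Subalgebra ℂ K) (ξ : Derivation ℂ K K) (J : Bra K) (s : ℝ)
    (h : K → Derivation ℂ K K) : Prop where
  reg : ∀ b c y z, IsH R ξ b y → IsH R ξ c z → IsH R ξ (b + c - s) (h y z)
  skew : ∀ b c y z, IsH R ξ b y → IsH R ξ c z → h y z = -h z y
  div : ∀ b y, IsH R ξ b y → HomBra (h y) 0 J
  ne : ∃ b c y z, IsH R ξ b y ∧ IsH R ξ c z ∧ h y z ≠ 0

/-- `E` is a Liouville field for the bracket `{y, z} = h y z`. -/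
def LioB (R : Subalgebra ℂ K) (ξ : Derivation ℂ K K) (h : K → Derivation ℂ K K)
    (E : Derivation ℂ K K) : Prop :=
  ∀ b c y z, IsH R ξ b y → IsH R ξ c z → E (h y z) = h (E y) z + h y (E z) - h y z

end Notions

/-! ## Bridge -/

/-- derivations of the germ and generators of the graded ring -/
def S_GEN : Prop := ∀ (R : Type) [CommRing R] [Algebra ℂ R] [IsDomain R] [IsLocalRing R]
  [IsNoetherianRing R] [IsAdicComplete (maximalIdeal R) R],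
  (∀ f : R, ∃ c : ℂ, f - algebraMap ℂ R c ∈ maximalIdeal R) →
  ∀ (w : CVal R) (K : Type) [Field K] [Algebra ℂ K] (R₀ : Subalgebra ℂ K)
    (ξ : Derivation ℂ K K) (sym : ℝ → R → K), GrL w R₀ ξ sym → IsCone R₀ ξ →
      ∃ G : Finset R, (∀ g ∈ G, g ≠ 0) ∧ ∀ (δ : Derivation ℂ R R) (d : ℝ),
        (∀ g ∈ G, w.v g + (d : WithTop ℝ) ≤ w.v (δ g)) → ∀ g, w.v g + (d : WithTop ℝ) ≤ w.v (δ g)

/-- the order of the bracket is attained -/
def S_ORD : Prop := ∀ (R : Type) [CommRing R] [Algebra ℂ R] [IsDomain R] [IsLocalRing R]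
  [IsNoetherianRing R] [IsAdicComplete (maximalIdeal R) R],
  (∀ f : R, ∃ c : ℂ, f - algebraMap ℂ R c ∈ maximalIdeal R) →
  ∀ (S : Symp R 2) (w : CVal R) (A : ℝ), LogDisc S w A →
  (∃ f ∈ maximalIdeal R, f ≠ 0) →
  ∀ (K : Type) [Field K] [Algebra ℂ K] (R₀ : Subalgebra ℂ K)
    (ξ : Derivation ℂ K K) (sym : ℝ → R → K), GrL w R₀ ξ sym → IsCone R₀ ξ →
      ∃ s : ℝ, OrderGe S w s ∧ ∃ f g : R, S.br f g ≠ 0 ∧
        w.v f + w.v g = w.v (S.br f g) + (s : WithTop ℝ)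

/-- a derivation of the germ induces a derivation of the graded ring -/
def S_IND : Prop := ∀ (R : Type) [CommRing R] [Algebra ℂ R] [IsDomain R] [IsLocalRing R]
  (w : CVal R) (K : Type) [Field K] [Algebra ℂ K] (R₀ : Subalgebra ℂ K)
    (ξ : Derivation ℂ K K) (sym : ℝ → R → K), GrL w R₀ ξ sym → IsCone R₀ ξ →
      ∀ (δ : Derivation ℂ R R) (d : ℝ), (∀ g, w.v g + (d : WithTop ℝ) ≤ w.v (δ g)) →
        ∃ D : Derivation ℂ K K, Pres R₀ D ∧
          ∀ (c : ℝ) x, (c : WithTop ℝ) ≤ w.v x → D (sym c x) = sym (c + d) (δ x)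

/-- the identities for the 4-vector field -/
def S_THI : Prop := ∀ (R : Type) [CommRing R] [Algebra ℂ R] [IsDomain R] (S : Symp R 2),
  (∀ (f : R) (F : Fin 4 → R),
    S.br f (S.th F) = ∑ i, S.th (Function.update F i (S.br f (F i)))) ∧
  ∀ E : Derivation ℂ R R, Liouville S E → ∀ F : Fin 4 → R,
    E (S.th F) = ∑ i, S.th (Function.update F i (E (F i))) - (2 : ℂ) • S.th F

/-- the leading term of the bracket -/
def S_POI : Prop := ∀ (R : Type) [CommRing R] [Algebra ℂ R] [IsDomain R] [IsLocalRing R]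
  [IsNoetherianRing R] [IsAdicComplete (maximalIdeal R) R],
  (∀ f : R, ∃ c : ℂ, f - algebraMap ℂ R c ∈ maximalIdeal R) →
  ∀ (S : Symp R 2) (w : CVal R) (A : ℝ), LogDisc S w A →
  ∀ (K : Type) [Field K] [Algebra ℂ K] (R₀ : Subalgebra ℂ K)
    (ξ : Derivation ℂ K K) (sym : ℝ → R → K), GrL w R₀ ξ sym →
  ∀ (J : Bra K), LeadTh S w A sym J → Cone4 R₀ ξ J A →
  ∀ s : ℝ, OrderGe S w s → (∃ f g : R, S.br f g ≠ 0 ∧
    w.v f + w.v g = w.v (S.br f g) + (s : WithTop ℝ)) →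
  ∃ h : K → Derivation ℂ K K, IsPoi R₀ ξ J s h ∧
    ∀ E : Derivation ℂ R R, Liouville S E → (∀ f, w.v f ≤ w.v (E f)) →
      ∃ E₀ : Derivation ℂ K K, Pres R₀ E₀ ∧ ⁅ξ, E₀⁆ = 0 ∧ HomBra E₀ 2 J ∧ LioB R₀ ξ h E₀

/-- the 2-form of the leading term of the bracket -/
def S_OM : Prop := ∀ (K : Type) [Field K] [Algebra ℂ K] (R : Subalgebra ℂ K)
  (ξ : Derivation ℂ K K) (J : Bra K) (a s : ℝ) (h : K → Derivation ℂ K K), Cone4 R ξ J a →
    IsPoi R ξ J s h → ∃ ω : Form K, IsReg R ω ∧ Closed ω ∧ HomForm ξ (a - s) ω ∧ ω ≠ 0 ∧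
      ∀ E : Derivation ℂ K K, Pres R E → ⁅ξ, E⁆ = 0 → HomBra E 2 J → LioB R ξ h E →
        HomForm E 1 ω

/-! ## Torus weights which are not `0` -/

/-- the torus of a derivation of degree `0` -/
def S_R1s : Prop := ∀ (K : Type) [Field K] [Algebra ℂ K] (R : Subalgebra ℂ K)
  (ξ : Derivation ℂ K K), IsCone R ξ → ∀ E : Derivation ℂ K K, Pres R E → ⁅ξ, E⁆ = 0 →
    ∃ (r : ℕ) (H : Fin r → Derivation ℂ K K) (c : Fin r → ℝ) (e : Fin r → ℂ), Tor R ξ H c ∧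
      (∀ i, Pres R (H i)) ∧ (∀ i, ⁅H i, E⁆ = 0) ∧
      ∀ x ∈ R, ∃ n : ℕ, ((E - ∑ i, e i • H i : Derivation ℂ K K) : K → K)^[n] x = 0

/-- a component of a 2-form which is homogeneous for the torus -/
def S_T1s : Prop := ∀ (K : Type) [Field K] [Algebra ℂ K] (R : Subalgebra ℂ K)
  (ξ : Derivation ℂ K K) (J : Bra K) (a : ℝ) (r : ℕ) (H : Fin r → Derivation ℂ K K)
  (c : Fin r → ℝ), Cone4 R ξ J a → Tor R ξ H c → ∀ (E : Derivation ℂ K K) (e : Fin r → ℂ),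
    Pres R E → (∀ i, ⁅H i, E⁆ = 0) →
    (∀ x ∈ R, ∃ n : ℕ, ((E - ∑ i, e i • H i : Derivation ℂ K K) : K → K)^[n] x = 0) →
    ∀ (ω : Form K) (k : ℝ), IsReg R ω → Closed ω → HomForm ξ k ω → HomForm E 1 ω → ω ≠ 0 →
      ∃ (ω' : Form K) (χ : Fin r → ℤ), IsReg R ω' ∧ Closed ω' ∧ ω' ≠ 0 ∧
        (∀ i, HomForm (H i) (χ i) ω') ∧ ∑ i, c i * χ i = k ∧ ∑ i, e i * (χ i : ℂ) = 1

/-- from 2-forms to 1-forms -/
def S_T2s : Prop := ∀ (K : Type) [Field K] [Algebra ℂ K] (R : Subalgebra ℂ K)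
  (ξ : Derivation ℂ K K) (J : Bra K) (a : ℝ) (r : ℕ) (H : Fin r → Derivation ℂ K K)
  (c : Fin r → ℝ), Cone4 R ξ J a → Tor R ξ H c → ∀ (ω : Form K) (χ : Fin r → ℤ), IsReg R ω →
    Closed ω → ω ≠ 0 → (∀ i, HomForm (H i) (χ i) ω) → χ ≠ 0 → ∑ i, c i * χ i = 0 → 0 < a →
      ∃ α, Al R ξ H χ α ∧ ∀ i, α (H i) = 0

/-- B1 for weights of degree `0` -/
def S_B1s : Prop := ∀ (K : Type) [Field K] [Algebra ℂ K] (R : Subalgebra ℂ K)
  (ξ : Derivation ℂ K K) (J : Bra K) (v : RVal K) (a V : ℝ) (r : ℕ)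
  (H : Fin r → Derivation ℂ K K) (c : Fin r → ℝ), Cone4 R ξ J a → IsMinF R ξ J v a V →
    Tor R ξ H c → 2 ≤ r → ∀ (χ : Fin r → ℤ) (α : One K), Al R ξ H χ α → χ ≠ 0 →
      ∑ i, c i * χ i = 0 → (∀ i, α (H i) = 0) →
        ∃ h, (∀ i, H i h = 0) ∧ ¬ Cst h ∧ ∃ b, ∀ D, α D = b * D h

end Pool.Agent.Helper88.D4
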