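import Pool.Agent.Helper88.D4.Stmts

/-!
# Project D4 (MP_e1889a_ag): statements of the pieces, version without Q-factoriality
-/

set_option autoImplicit false

namespace Pool.Agent.Helper88.D4

open Module Filter Topology Pool.Agent.Helper37.SD Pool.Agent.Helper20.TS

section Notions

variable {K : Type} [Field K] [Algebra ℂ K]

/-- The volume of `w` is at most `V` (dimension 4), as a lower limit. -/
def VolLeF (R : Subalgebra ℂ K) (w : RVal K) (V : ℝ) : Prop := ∀ ε : ℝ, 0 < ε →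
  ∃ᶠ m : ℕ in atTop, 24 * (finrank ℂ (R ⧸ idl R w m) : ℝ) ≤ (V + ε) * (m : ℝ) ^ 4

/-- `v = wt ξ` minimizes the normalized volume at the vertex of the cone (which is klt: the log
discrepancies are positive); the volume of a competitor is estimated by the lower limit. -/
structure IsMinF (R : Subalgebra ℂ K) (ξ : Derivation ℂ K K) (J : Bra K) (v : RVal K) (a V : ℝ) :
    Prop where
  wt : IsWt R ξ v
  vol : HasVol 2 R v V
  apos : 0 < a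
  vpos : 0 < V
  min : ∀ (w : RVal K) (a' V' : ℝ), Centred R v w → LDLe J w a' → VolLeF R w V' →
    0 < a' ∧ a ^ 4 * V ≤ a' ^ 4 * V'

/-- The functions `φ` of `R` such that `φ h ^ j` lies in `R`: the sections of `O(-j D)`, where `D` is
the divisor of the poles of `h`. -/
def Sj (R : Subalgebra ℂ K) (h : K) (j : ℕ) : Submodule ℂ K where
  carrier := {φ | φ ∈ R ∧ φ * h ^ j ∈ R}
  add_mem' := fun {x y} hx hy => ⟨R.add_mem hx.1 hy.1, by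
    rw [add_mul]; exact R.add_mem hx.2 hy.2⟩
  zero_mem' := ⟨R.zero_mem, by rw [zero_mul]; exact R.zero_mem⟩
  smul_mem' := fun z x hx => ⟨R.smul_mem hx.1 z, by
    rw [smul_mul_assoc]; exact R.smul_mem hx.2 z⟩

/-- The algebra `∑ j, O(-j D) t ^ j`. -/
def Sym (R : Subalgebra ℂ K) (h : K) : Subalgebra ℂ (Polynomial K) where
  carrier := {P | ∀ j, P.coeff j ∈ Sj R h j}
  mul_mem' := fun {P Q} hP hQ j => by
    rw [Polynomial.coeff_mul]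
    refine Submodule.sum_mem _ fun i hi => ?_
    have e := Finset.HasAntidiagonal.mem_antidiagonal.mp hi
    refine ⟨R.mul_mem (hP _).1 (hQ _).1, ?_⟩
    have e2 : P.coeff i.1 * Q.coeff i.2 * h ^ j =
        (P.coeff i.1 * h ^ i.1) * (Q.coeff i.2 * h ^ i.2) := by
      rw [← e, pow_add]; ring
    rw [e2]
    exact R.mul_mem (hP _).2 (hQ _).2
  add_mem' := fun {P Q} hP hQ j => by
    rw [Polynomial.coeff_add]
    exact Submodule.add_mem _ (hP j) (hQ j)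
  algebraMap_mem' := fun z j => by
    rw [Polynomial.algebraMap_apply, Polynomial.coeff_C]
    split_ifs with h0
    · subst h0
      exact ⟨R.algebraMap_mem z, by rw [pow_zero, mul_one]; exact R.algebraMap_mem z⟩
    · exact Submodule.zero_mem _

/-- (FG) the divisorial algebras are finitely generated. -/
def FGen (R : Subalgebra ℂ K) (ξ : Derivation ℂ K K) : Prop :=
  ∀ h : K, ξ h = 0 → ¬ Cst h → (Sym R h).FG

/-- (TOR) If the closed 1-form `η` has at most simple poles, along the zeros of `s`, with constant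
residues `c u`, then the divisor of the residues is a complex linear combination of principal
divisors supported on the zeros of `s`. -/
def Tors (R : Subalgebra ℂ K) : Prop := ∀ (η : One K) (s : K) (c : RVal K → ℂ),
  (∀ A B, dOne η A B = 0) → s ∈ R → s ≠ 0 → (∀ u, PDiv R u → u.val s = 0 ∨ u.val s = 1) →
    (∀ u, PDiv R u → ∀ D, Pres R D → u.Ge 0 (η D - c u • (D s / s))) →
      ∃ (p : ℕ) (φ : Fin p → K) (γ : Fin p → ℂ), (∀ i, φ i ≠ 0) ∧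
        (∀ u, PDiv R u → u.val s = 0 → ∀ i, u.val (φ i) = 0) ∧
        ∀ u, PDiv R u → u.val s = 1 → c u = ∑ i, γ i * (u.val (φ i) : ℂ)

/-- A discrete valuation for which the derivations are bounded. -/
structure BVal (u : RVal K) : Prop where
  disc : ∃ q : ℝ, 0 < q ∧ ∀ x, x ≠ 0 → ∃ n : ℤ, u.val x = n * q
  bdd : ∀ D : Derivation ℂ K K, ∃ B : ℝ, ∀ x, x ≠ 0 → u.Ge (u.val x - B) (D x)

end Notions

/-! ## Volumes -/

/-- V4 for a function `W` which need not be the inverse of an element of `R` -/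
def S_V4W : Prop := ∀ (K : Type) [Field K] [Algebra ℂ K] (R : Subalgebra ℂ K)
  (ξ : Derivation ℂ K K) (J : Bra K) (v : RVal K) (a V : ℝ), Cone4 R ξ J a → IsMinF R ξ J v a V →
    ∀ (H : Derivation ℂ K K), ⁅ξ, H⁆ = 0 →
      (∀ x ∈ R, x ∈ Submodule.span ℂ {y | y ∈ R ∧ ∃ c : ℝ, ∃ i : ℕ, ξ y = (c : ℂ) • y ∧
        H y = (i : ℂ) • y}) → HomBra H 1 J →
      ∀ (W : K) (q : ℝ) (p : ℕ), W ≠ 0 → 0 < p → ξ W = -(q : ℂ) • W → H W = -(p : ℂ) • W →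
        (∀ x ∈ R, ∀ i : ℕ, H x = (i : ℂ) • x → p ≤ i → W * x ∈ R) → 4 * q ≤ a * p

/-- V5: the volume estimate of theorem P -/
def S_V5 : Prop := ∀ (K : Type) [Field K] [Algebra ℂ K] (R : Subalgebra ℂ K)
  (ξ : Derivation ℂ K K) (J : Bra K) (v : RVal K) (a V : ℝ), Cone4 R ξ J a → IsMinF R ξ J v a V →
    ∀ h : K, ξ h = 0 → ¬ Cst h → ∀ (u : RVal K) (c τ : ℝ), 0 < τ → 0 ≤ u.val h → LDLe J u c →
      (∀ (j : ℕ) (φ : K), φ ∈ Sj R h j → φ ≠ 0 → j * τ ≤ u.val φ) →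
        ∀ (j : ℕ) (φ : K) (δ : ℝ), 0 < j → φ ∈ Sj R h j → φ ≠ 0 → ξ φ = (δ : ℂ) • φ →
          a * j * τ ≤ 2 * δ * c

/-! ## Valuations -/

/-- EX2 for any transcendence degree -/
def S_EX2g : Prop := ∀ (K : Type) [Field K] [Algebra ℂ K] (R : Subalgebra ℂ K) (n : ℕ), IsFrac R →
  R.FG → Algebra.trdeg ℂ K = ((n + 2 : ℕ) : Cardinal) → ∀ h : K, ¬ Cst h → ∀ x : K,
    ¬ IsIntegral (Ah R h) x → ∃ u : RVal K, DVal u ∧ u.val x < 0 ∧
      (∀ y ∈ Ah R h, y ≠ 0 → 0 ≤ u.val y) ∧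
      ∃ y : Fin n → K, (∀ i, y i ∈ Ah R h) ∧ RInd u (Fin.cons h y : Fin (n + 1) → K)

/-- valuations for `b ^ r / t ^ s` -/
def S_EX3 : Prop := ∀ (K : Type) [Field K] [Algebra ℂ K] (R : Subalgebra ℂ K)
  (ξ : Derivation ℂ K K), IsCone R ξ → Algebra.trdeg ℂ K = 4 → ∀ h : K, ξ h = 0 → ¬ Cst h →
    (Sym R h).FG → ∀ (b : K) (k : ℝ), b ≠ 0 → ξ b = (k : ℂ) • b → ∀ r s : ℕ, 0 < r → 0 < s →
      (∀ (j : ℕ) (φ : K) (δ : ℝ), 0 < j → φ ∈ Sj R h j → φ ≠ 0 → ξ φ = (δ : ℂ) • φ →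
        (j : ℝ) * (r * k) < s * δ) →
      ∃ (u : RVal K) (τ : ℝ), 0 ≤ τ ∧ BVal u ∧ r * u.val b < s * τ ∧
        (∀ (j : ℕ) (φ : K), φ ∈ Sj R h j → φ ≠ 0 → j * τ ≤ u.val φ) ∧
        (τ = 0 → ∃ y ∈ R, ∃ z ∈ R, RInd u ![h, y, z]) ∧
        (0 < τ → ∃ (j : Fin 3 → ℕ) (φ : Fin 3 → K), 0 < j 0 ∧ (∀ i, φ i ∈ Sj R h (j i)) ∧
          (∀ i, φ i ≠ 0) ∧ (∀ i, u.val (φ i) = j i * τ) ∧
          RInd u ![h, φ 1 ^ j 0 / φ 0 ^ j 1, φ 2 ^ j 0 / φ 0 ^ j 2])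

/-- TAME for bounded valuations -/
def S_TAMEb : Prop := ∀ (K : Type) [Field K] [Algebra ℂ K], Algebra.trdeg ℂ K = 4 →
  ∀ (u : RVal K), BVal u → ∀ (y : Fin 3 → K), RInd u y → ∀ g : K, g ≠ 0 → 0 < u.val g →
    ∀ D : Derivation ℂ K K, u.Ge (u.val g) (D g) → (∀ i, u.Ge 0 (D (y i))) → LogDer u D

/-- LDfr for bounded valuations -/
def S_LDfrb : Prop := ∀ (K : Type) [Field K] [Algebra ℂ K] (J : Bra K), Algebra.trdeg ℂ K = 4 →
  IsAlt J → ∀ (u : RVal K), BVal u → ∀ (y : Fin 3 → K), RInd u y → ∀ g : K, g ≠ 0 →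
    0 < u.val g →
      J (y 0) (y 1) (y 2) g ≠ 0 ∧ LDLe J u (u.val g - u.val (J (y 0) (y 1) (y 2) g))

/-! ## The theorems -/

/-- case A -/
def S_An : Prop := ∀ (K : Type) [Field K] [Algebra ℂ K] (R : Subalgebra ℂ K)
  (ξ : Derivation ℂ K K) (J : Bra K) (v : RVal K) (a V : ℝ) (r : ℕ)
  (H : Fin r → Derivation ℂ K K) (c : Fin r → ℝ), Cone4 R ξ J a → IsMin R ξ J v a V → Tors R →
    Tor R ξ H c → ∀ (χ : Fin r → ℤ) (α : One K), Al R ξ H χ α → ∑ i, c i * χ i ≠ 0 →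
      (∃ j, α (H j) ≠ 0) → a ≤ 2 * ∑ i, c i * χ i

/-- growth of the weight spaces, rank 2 -/
def S_W2n : Prop := ∀ (K : Type) [Field K] [Algebra ℂ K] (R : Subalgebra ℂ K)
  (ξ : Derivation ℂ K K) (J : Bra K) (v : RVal K) (a V : ℝ)
  (H : Fin 2 → Derivation ℂ K K) (c : Fin 2 → ℝ), Cone4 R ξ J a → IsMinF R ξ J v a V →
    Tor R ξ H c → ∀ (χ : Fin 2 → ℤ) (α : One K), Al R ξ H χ α → (∀ i, α (H i) = 0) →
      ∑ i, c i * χ i ≠ 0 → 2 * ∑ i, c i * χ i < a → ∀ Z, IsZ J H α Z →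
        (∀ h, (∀ i, H i h = 0) → Z h = 0 → Cst h) → ∃ B : ℝ, ∀ (m : Fin 2 → ℤ),
          Module.Finite ℂ (Wsp R H m) → 0 < ∑ i, c i * m i →
            (finrank ℂ (Wsp R H m) : ℝ) ≤ B * (∑ i, c i * m i + 1)

/-- B1 -/
def S_B1n : Prop := ∀ (K : Type) [Field K] [Algebra ℂ K] (R : Subalgebra ℂ K)
  (ξ : Derivation ℂ K K) (J : Bra K) (v : RVal K) (a V : ℝ) (r : ℕ)
  (H : Fin r → Derivation ℂ K K) (c : Fin r → ℝ), Cone4 R ξ J a → IsMinF R ξ J v a V →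
    Tor R ξ H c → 2 ≤ r → ∀ (χ : Fin r → ℤ) (α : One K), Al R ξ H χ α → ∑ i, c i * χ i ≠ 0 →
      (∀ i, α (H i) = 0) → 2 * ∑ i, c i * χ i < a →
        ∃ h, (∀ i, H i h = 0) ∧ ¬ Cst h ∧ ∃ b, ∀ D, α D = b * D h

/-- theorem P -/
def S_Pn : Prop := ∀ (K : Type) [Field K] [Algebra ℂ K] (R : Subalgebra ℂ K)
  (ξ : Derivation ℂ K K) (J : Bra K) (v : RVal K) (a V : ℝ), Cone4 R ξ J a → IsMinF R ξ J v a V →
    ∀ (h b : K) (k : ℝ) (α : One K), ξ h = 0 → ¬ Cst h → (Sym R h).FG → b ≠ 0 →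
      ξ b = (k : ℂ) • b → (∀ D, α D = b * D h) → Reg1 R α → a ≤ 2 * k

def S_CMn : Prop := ∀ (K : Type) [Field K] [Algebra ℂ K] (R : Subalgebra ℂ K)
  (ξ : Derivation ℂ K K) (J : Bra K) (v : RVal K) (a V : ℝ) (r : ℕ)
  (H : Fin r → Derivation ℂ K K) (c : Fin r → ℝ), Cone4 R ξ J a → IsMinF R ξ J v a V →
    QFac R ∨ (Tors R ∧ FGen R ξ) → Tor R ξ H c → 2 ≤ r → ∀ (χ : Fin r → ℤ) (α : One K),
      Al R ξ H χ α → ∑ i, c i * χ i ≠ 0 → a ≤ 2 * ∑ i, c i * χ i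

def S_FMn : Prop := ∀ (K : Type) [Field K] [Algebra ℂ K] (R : Subalgebra ℂ K)
  (ξ : Derivation ℂ K K) (J : Bra K) (v : RVal K) (a V : ℝ) (r : ℕ)
  (H : Fin r → Derivation ℂ K K) (c : Fin r → ℝ), Cone4 R ξ J a → IsMinF R ξ J v a V →
    QFac R ∨ (Tors R ∧ FGen R ξ) → Tor R ξ H c → 2 ≤ r → ∀ (ω : Form K) (k : ℝ), IsReg R ω →
      Closed ω → HomForm ξ k ω → ω ≠ 0 → k ≠ 0 → a ≤ 2 * k

end Pool.Agent.Helper88.D4
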