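import Pool.Agent.Helper37.SD.Main
import Pool.Agent.Helper20.TS.Defs

/-!
# Project D4 (MP_e1889a_ag): cones of dimension 4, definitions
-/

set_option autoImplicit false

namespace Pool.Agent.Helper88.D4

open Module Filter Topology Pool.Agent.Helper37.SD Pool.Agent.Helper20.TS

variable {K : Type} [Field K] [Algebra ℂ K]

/-- A bracket of four functions: `[x, y, z, w] = J y z w x`, a derivation in `x`. -/
abbrev Bra (K : Type) [Field K] [Algebra ℂ K] : Type := K → K → K → Derivation ℂ K K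

/-- The bracket is alternating (and so a derivation in each argument), and not zero: it is the dual
of a volume form. -/
structure IsAlt (J : Bra K) : Prop where
  s1 : ∀ x y z w, J x z w y = -J y z w x
  s2 : ∀ y z w, J z y w = -J y z w
  s3 : ∀ y z w, J y w z = -J y z w
  ne : ∃ x y z w, J y z w x ≠ 0

/-- `w [x₁, …, x₄] ≥ w x₁ + … + w x₄ - c`: the log discrepancy of `w` is at most `c`. -/
def LDLe (J : Bra K) (w : RVal K) (c : ℝ) : Prop := ∀ x y z t : K, x ≠ 0 → y ≠ 0 → z ≠ 0 → t ≠ 0 →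
  w.Ge (w.val x + w.val y + w.val z + w.val t - c) (J y z t x)

/-- `u` is the valuation of a prime divisor of `Spec R`. -/
structure PDiv (R : Subalgebra ℂ K) (u : RVal K) : Prop where
  int : ∀ x, x ≠ 0 → ∃ n : ℤ, u.val x = n
  nonneg : ∀ x ∈ R, x ≠ 0 → 0 ≤ u.val x
  unif : ∃ p ∈ R, p ≠ 0 ∧ u.val p = 1
  loc : ∀ x, x ≠ 0 → 0 ≤ u.val x → ∃ s ∈ R, s ≠ 0 ∧ u.val s = 0 ∧ s * x ∈ R

/-- A discrete valuation whose ring is essentially of finite type. -/
structure DVal (u : RVal K) : Prop where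
  int : ∀ x, x ≠ 0 → ∃ n : ℤ, u.val x = n
  unif : ∃ p, p ≠ 0 ∧ u.val p = 1
  eft : ∃ G : Finset K, (∀ g ∈ G, u.Ge 0 g) ∧ ∀ x, x ≠ 0 → 0 ≤ u.val x →
    ∃ s ∈ Algebra.adjoin ℂ (G : Set K), s ≠ 0 ∧ u.val s = 0 ∧
      s * x ∈ Algebra.adjoin ℂ (G : Set K)

/-- The residue classes of `z 0, …, z (n - 1)` are algebraically independent. -/
def RInd (u : RVal K) {n : ℕ} (z : Fin n → K) : Prop := ∀ P : MvPolynomial (Fin n) ℂ, P ≠ 0 →
  MvPolynomial.aeval z P ≠ 0 ∧ u.val (MvPolynomial.aeval z P) = 0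

/-- `[x₁, …, x₄]` is homogeneous of degree `-a` for the derivation `ξ`. -/
def HomBra (ξ : Derivation ℂ K K) (a : ℂ) (J : Bra K) : Prop := ∀ x y z w,
  ξ (J y z w x) = J y z w (ξ x) + J (ξ y) z w x + J y (ξ z) w x + J y z (ξ w) x - a • J y z w x

/-- A normal cone of dimension 4 with a nowhere vanishing regular volume form of weight `a`, given by
its dual bracket `J`. -/
structure Cone4 (R : Subalgebra ℂ K) (ξ : Derivation ℂ K K) (J : Bra K) (a : ℝ) : Prop
    extends IsCone R ξ where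
  trdeg : Algebra.trdeg ℂ K = 4
  normal : Normal R
  alt : IsAlt J
  reg : ∀ x ∈ R, ∀ y ∈ R, ∀ z ∈ R, ∀ w ∈ R, J y z w x ∈ R
  hom : HomBra ξ (a : ℂ) J
  gen : ∀ u, PDiv R u → ∃ x ∈ R, ∃ y ∈ R, ∃ z ∈ R, ∃ w ∈ R, J y z w x ≠ 0 ∧ u.val (J y z w x) = 0

/-- The volume of `w` is at most `V` (dimension 4). -/
def VolLe (R : Subalgebra ℂ K) (w : RVal K) (V : ℝ) : Prop := ∀ ε : ℝ, 0 < ε →
  ∀ᶠ m : ℕ in atTop, 24 * (finrank ℂ (R ⧸ idl R w m) : ℝ) ≤ (V + ε) * (m : ℝ) ^ 4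

/-- `v = wt ξ` minimizes the normalized volume at the vertex of the cone (which is klt: the log
discrepancies are positive). -/
structure IsMin (R : Subalgebra ℂ K) (ξ : Derivation ℂ K K) (J : Bra K) (v : RVal K) (a V : ℝ) :
    Prop where
  wt : IsWt R ξ v
  vol : HasVol 2 R v V
  apos : 0 < a
  vpos : 0 < V
  min : ∀ (w : RVal K) (a' V' : ℝ), Centred R v w → LDLe J w a' → VolLe R w V' →
    0 < a' ∧ a ^ 4 * V ≤ a' ^ 4 * V'

/-- A multiple of each prime divisor is principal. -/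
def QFac (R : Subalgebra ℂ K) : Prop := ∀ u, PDiv R u → ∃ F ∈ R, F ≠ 0 ∧ 0 < u.val F ∧
  ∀ u', PDiv R u' → 0 < u'.val F → ∀ x, x ≠ 0 → u'.val x = u.val x

/-- `y` has the weight `m`. -/
def IsW {r : ℕ} (H : Fin r → Derivation ℂ K K) (m : Fin r → ℤ) (y : K) : Prop :=
  ∀ i, H i y = (m i : ℂ) • y

/-- A torus of rank `r` acting on `Spec R`, given by commuting derivations `H i` with integral
weights, which contains the Reeb field `ξ = ∑ c i • H i`. -/
structure Tor {r : ℕ} (R : Subalgebra ℂ K) (ξ : Derivation ℂ K K)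
    (H : Fin r → Derivation ℂ K K) (c : Fin r → ℝ) : Prop where
  comm : ∀ i j, ⁅H i, H j⁆ = 0
  span : ∀ x ∈ R, x ∈ Submodule.span ℂ {y | y ∈ R ∧ ∃ m : Fin r → ℤ, IsW H m y}
  xi : ξ = ∑ i, (c i : ℂ) • H i
  ind : LinearIndependent ℂ H

/-- Rational 1-forms. -/
abbrev One (K : Type) [Field K] [Algebra ℂ K] : Type := Derivation ℂ K K →ₗ[K] K

/-- `dα` -/
def dOne (α : One K) (A B : Derivation ℂ K K) : K := A (α B) - B (α A) - α ⁅A, B⁆

/-- A regular 1-form: its values at the derivations of `R` lie in `R`. -/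
def Reg1 (R : Subalgebra ℂ K) (α : One K) : Prop := ∀ D, Pres R D → α D ∈ R

/-- A regular nonzero 1-form `α` of weight `χ` with `α ξ = 0` and `α ∧ dα = 0`. -/
structure Al {r : ℕ} (R : Subalgebra ℂ K) (ξ : Derivation ℂ K K) (H : Fin r → Derivation ℂ K K)
    (χ : Fin r → ℤ) (α : One K) : Prop where
  ne : α ≠ 0
  reg : Reg1 R α
  wt : ∀ i D, H i (α D) - α ⁅H i, D⁆ = (χ i : ℂ) • α D
  xi : α ξ = 0
  int : ∀ A B C, α A * dOne α B C - α B * dOne α A C + α C * dOne α A B = 0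

/-- The subalgebra generated by `R` and the field `ℂ(h)`. -/
noncomputable def Ah (R : Subalgebra ℂ K) (h : K) : Subalgebra ℂ K :=
  R ⊔ (IntermediateField.adjoin ℂ {h}).toSubalgebra

/-- The Pfaffian `ω² / 2` of a 2-form at four derivations. -/
def pf (ω : Form K) (D : Fin 4 → Derivation ℂ K K) : K :=
  ω (D 0) (D 1) * ω (D 2) (D 3) - ω (D 0) (D 2) * ω (D 1) (D 3) + ω (D 0) (D 3) * ω (D 1) (D 2)

end Pool.Agent.Helper88.D4
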