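import Pool.Agent.Helper88.D4.Stmts4

/-!
# Project D4 (MP_e1889a_ag): 2-forms of degree `0` on cones with a torus of rank at least 2
-/

set_option autoImplicit false

namespace Pool.Agent.Helper88.D4

open Module Filter Topology Pool.Agent.Helper37.SD Pool.Agent.Helper20.TS

/-- (INT) the weight of the volume form is positive on the dual of the cone of the weights of `R` -/
def S_INT : Prop := ∀ (K : Type) [Field K] [Algebra ℂ K] (R : Subalgebra ℂ K)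
  (ξ : Derivation ℂ K K) (J : Bra K) (v : RVal K) (a V : ℝ) (r : ℕ)
  (H : Fin r → Derivation ℂ K K) (c : Fin r → ℝ), Cone4 R ξ J a → IsMinF R ξ J v a V →
    Tor R ξ H c → ∀ w₀ : Fin r → ℤ, (∀ i, HomBra (H i) (w₀ i : ℂ) J) → ∀ ρ : Fin r → ℝ,
      (∀ (m : Fin r → ℤ) (y : K), y ∈ R → y ≠ 0 → IsW H m y → 0 ≤ ∑ i, ρ i * m i) →
      (∃ (m : Fin r → ℤ) (y : K), y ∈ R ∧ y ≠ 0 ∧ IsW H m y ∧ 0 < ∑ i, ρ i * m i) →
        0 < ∑ i, ρ i * w₀ i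

/-- (GW) growth of the weight spaces in the direction of the volume form, rank 2 -/
def S_GW : Prop := ∀ (K : Type) [Field K] [Algebra ℂ K] (R : Subalgebra ℂ K)
  (ξ : Derivation ℂ K K) (J : Bra K) (v : RVal K) (a V : ℝ)
  (H : Fin 2 → Derivation ℂ K K) (c : Fin 2 → ℝ), Cone4 R ξ J a → IsMinF R ξ J v a V →
    Tor R ξ H c → ∀ w₀ : Fin 2 → ℤ, (∀ i, HomBra (H i) (w₀ i : ℂ) J) → ∀ B : ℝ,
      ∃ j : ℕ, 0 < j ∧ Module.Finite ℂ (Wsp R H ((j : ℤ) • w₀)) ∧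
        B * ((j : ℝ) + 1) < (finrank ℂ (Wsp R H ((j : ℤ) • w₀)) : ℝ)

/-- (PTz) prime divisors for a torus of rank 2: two independent units, or the order is a function of
the weight (S_PT without a 1-form) -/
def S_PTz : Prop := ∀ (K : Type) [Field K] [Algebra ℂ K] (R : Subalgebra ℂ K)
  (ξ : Derivation ℂ K K) (J : Bra K) (a : ℝ) (H : Fin 2 → Derivation ℂ K K) (c : Fin 2 → ℝ),
    Cone4 R ξ J a → Tor R ξ H c → ∀ w₀ : Fin 2 → ℤ, (∀ i, HomBra (H i) (w₀ i : ℂ) J) →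
      ∀ u, PDiv R u →
        (∃ (x y : K) (m m' : Fin 2 → ℤ), x ≠ 0 ∧ y ≠ 0 ∧ IsW H m x ∧ IsW H m' y ∧ u.val x = 0 ∧
          u.val y = 0 ∧ m 0 * m' 1 ≠ m 1 * m' 0) ∨
        ∃ ρ : Fin 2 → ℝ, (∀ m φ, φ ≠ 0 → IsW H m φ → u.val φ = ∑ i, ρ i * m i) ∧
          ∑ i, ρ i * w₀ i = 1

/-- (B1z) first integrals of invariant 1-forms which vanish on the torus -/
def S_B1z : Prop := ∀ (K : Type) [Field K] [Algebra ℂ K] (R : Subalgebra ℂ K)
  (ξ : Derivation ℂ K K) (J : Bra K) (v : RVal K) (a V : ℝ) (r : ℕ)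
  (H : Fin r → Derivation ℂ K K) (c : Fin r → ℝ), Cone4 R ξ J a → IsMinF R ξ J v a V →
    Tor R ξ H c → 2 ≤ r → ∀ α : One K, Al R ξ H 0 α → (∀ i, α (H i) = 0) →
      ∃ h, (∀ i, H i h = 0) ∧ ¬ Cst h ∧ ∃ b, ∀ D, α D = b * D h

/-- (K2) an invariant regular 2-form with the torus in its kernel is zero -/
def S_K2 : Prop := ∀ (K : Type) [Field K] [Algebra ℂ K] (R : Subalgebra ℂ K)
  (ξ : Derivation ℂ K K) (J : Bra K) (v : RVal K) (a V : ℝ) (r : ℕ)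
  (H : Fin r → Derivation ℂ K K) (c : Fin r → ℝ), Cone4 R ξ J a → IsMinF R ξ J v a V →
    Tor R ξ H c → 2 ≤ r → ∀ ω : Form K, IsReg R ω → (∀ i, HomForm (H i) 0 ω) →
      (∀ i D, ω (H i) D = 0) → ω = 0

/-- (T2z) from invariant closed 2-forms to invariant 1-forms -/
def S_T2z : Prop := ∀ (K : Type) [Field K] [Algebra ℂ K] (R : Subalgebra ℂ K)
  (ξ : Derivation ℂ K K) (J : Bra K) (a : ℝ) (r : ℕ) (H : Fin r → Derivation ℂ K K)
  (c : Fin r → ℝ), Cone4 R ξ J a → Tor R ξ H c → ∀ ω : Form K, IsReg R ω → Closed ω →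
    (∀ i, HomForm (H i) 0 ω) → (∀ i D, ω (H i) D = 0) ∨
      ∃ α : One K, Al R ξ H 0 α ∧ ∀ i, α (H i) = 0

end Pool.Agent.Helper88.D4
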