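import Pool.Agent.Helper88.D4.Stmts5

/-!
# Project D4 (MP_e1889a_ag): cones with a torus of rank 1 (stage 6), `X₀` Q-factorial
-/

set_option autoImplicit false

namespace Pool.Agent.Helper88.D4

open Module Filter Topology Pool.Agent.Helper37.SD Pool.Agent.Helper20.TS

section Notions

variable {K : Type} [Field K] [Algebra ℂ K]

/-- `D` preserves the valuation ring of `u`. -/
def URg (u : RVal K) (D : Derivation ℂ K K) : Prop := ∀ F, u.Ge 0 F → u.Ge 0 (D F)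

/-- `t` is the order of the pole of `D` at `u`. -/
def Pole (u : RVal K) (D : Derivation ℂ K K) (t : ℤ) : Prop :=
  (∀ F, u.Ge 0 F → u.Ge (-(t : ℝ)) (D F)) ∧ ∃ F, u.Ge 0 F ∧ D F ≠ 0 ∧ u.val (D F) = -(t : ℝ)

/-- `(D 0, D 1)` is a frame of degree `0` of an integrable plane field, and `P • D 0 ∧ D 1` is a regular
bivector of degree `-s`. -/
structure Fr (R : Subalgebra ℂ K) (ξ : Derivation ℂ K K) (s : ℝ) (D : Fin 2 → Derivation ℂ K K)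
    (P : K) : Prop where
  ne : P ≠ 0
  wt : ξ P = ((-s : ℝ) : ℂ) • P
  ind : ∀ x y : K, x • D 0 + y • D 1 = 0 → x = 0 ∧ y = 0
  com : ∀ i, ⁅ξ, D i⁆ = 0
  inv : ∃ x y : K, ⁅D 0, D 1⁆ = x • D 0 + y • D 1
  reg : ∀ u, PDiv R u → ∀ F G, u.Ge 0 F → u.Ge 0 G → u.Ge 0 (P * (D 0 F * D 1 G - D 1 F * D 0 G))

/-- `x ^ (1 / N) • Z` is a regular derivation, and its order along each prime divisor is an
integer. -/
structure Comp (R : Subalgebra ℂ K) (Z : Derivation ℂ K K) (x : K) (N : ℕ) : Prop where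
  ne : x ≠ 0
  pos : 0 < N
  reg : ∀ u, PDiv R u → ∃ t : ℤ, u.val x = N * t ∧ ∀ F, u.Ge 0 F → u.Ge (-(t : ℝ)) (Z F)

/-- `x ^ (-j / N) * Δ ^ j F` for `Δ = x ^ (1 / N) • Z` -/
noncomputable def tw (Z : Derivation ℂ K K) (x : K) (N : ℕ) (F : K) : ℕ → K
  | 0 => F
  | j + 1 => Z (tw Z x N F j) + ((j : K) / (N : K)) * (Z x / x) * tw Z x N F j

/-- the value of the binary form `∑ f i X ^ i Y ^ (q - i)` -/
noncomputable def ev (f : Polynomial K) (q : ℕ) (x y : K) : K :=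
  ∑ i ∈ Finset.range (q + 1), f.coeff i * x ^ i * y ^ (q - i)

/-- The binary form `f` of degree `q` is regular on the plane field spanned by `D`. -/
def RegF (R : Subalgebra ℂ K) (D : Fin 2 → Derivation ℂ K K) (q : ℕ) (f : Polynomial K) : Prop :=
  ∀ u, PDiv R u → ∀ x y : K, URg u (x • D 0 + y • D 1) → u.Ge 0 (ev f q x y)

/-- the word `D (w 0) (D (w 1) (… x))` -/
def wd (D : Fin 2 → Derivation ℂ K K) (w : List (Fin 2)) (x : K) : K :=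
  w.foldr (fun i y => D i y) x

/-- `D 0 ^ i (D 1 ^ j x)` -/
def dd (D : Fin 2 → Derivation ℂ K K) (i j : ℕ) (x : K) : K :=
  (D 0 : K → K)^[i] ((D 1 : K → K)^[j] x)

end Notions

/-! ## Planes and poles -/

/-- a derivation has a pole order at each prime divisor -/
def S_POL : Prop := ∀ (K : Type) [Field K] [Algebra ℂ K] (R : Subalgebra ℂ K)
  (ξ : Derivation ℂ K K), IsCone R ξ → ∀ u, PDiv R u → ∀ D : Derivation ℂ K K, D ≠ 0 →
    ∃ t, Pole u D t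

/-- (KER) the kernel of a degenerate 2-form -/
def S_KER : Prop := ∀ (K : Type) [Field K] [Algebra ℂ K] (R : Subalgebra ℂ K)
  (ξ : Derivation ℂ K K) (J : Bra K) (a : ℝ), Cone4 R ξ J a → ∀ (ω : Form K) (k : ℝ),
    IsReg R ω → Closed ω → HomForm ξ k ω → ω ≠ 0 → (∀ D, pf ω D = 0) →
      ∃ (D : Fin 2 → Derivation ℂ K K) (P : K), Fr R ξ (a - k) D P ∧
        ∀ E, (∀ B, ω E B = 0) ↔ ∃ x y : K, E = x • D 0 + y • D 1

/-- (LAT) a complementary vector -/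
def S_LAT : Prop := ∀ (K : Type) [Field K] [Algebra ℂ K] (R : Subalgebra ℂ K)
  (ξ : Derivation ℂ K K) (s : ℝ) (D : Fin 2 → Derivation ℂ K K) (P : K), IsCone R ξ →
    Fr R ξ s D P → ∀ u, PDiv R u → ∀ (x y : K) (t : ℤ), Pole u (x • D 0 + y • D 1) t →
      ∃ x' y' : K, URg u (x' • D 0 + y' • D 1) ∧ x * y' - y * x' ≠ 0 ∧
        u.val (x * y' - y * x') + t ≤ u.val P

/-- (CMP) a function whose order along each prime divisor is a multiple of the pole order of `Z` -/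
def S_CMP : Prop := ∀ (K : Type) [Field K] [Algebra ℂ K] (R : Subalgebra ℂ K)
  (ξ : Derivation ℂ K K) (J : Bra K) (a : ℝ) (H : Fin 1 → Derivation ℂ K K) (c : Fin 1 → ℝ),
    Cone4 R ξ J a → QFac R → Tor R ξ H c → ∀ Z : Derivation ℂ K K, Z ≠ 0 → ∀ κ : ℤ,
      ⁅H 0, Z⁆ = (κ : ℂ) • Z → ∃ (x : K) (N : ℕ) (b : ℝ), x ≠ 0 ∧ 0 < N ∧
        ξ x = (b : ℂ) • x ∧ ∀ u, PDiv R u → ∀ t, Pole u Z t → u.val x = N * t

/-! ## The bound for fractional derivations (L2).  Always `d = -(b / N + ζ)`. -/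

/-- (TW) twisted iterates -/
def S_TW : Prop := ∀ (K : Type) [Field K] [Algebra ℂ K] (R : Subalgebra ℂ K)
  (ξ : Derivation ℂ K K), IsCone R ξ → Normal R → ∀ (Z : Derivation ℂ K K) (x : K) (N : ℕ)
    (b ζ : ℝ), Comp R Z x N → ξ x = (b : ℂ) • x → ⁅ξ, Z⁆ = (ζ : ℂ) • Z →
      (∀ F ∈ R, ∀ j, x ^ j * tw Z x N F j ^ N ∈ R) ∧
      (∀ (F : K) (w : ℝ), ξ F = (w : ℂ) • F →
        ∀ j, ξ (tw Z x N F j) = ((w + j * ζ : ℝ) : ℂ) • tw Z x N F j) ∧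
      (∀ F ∈ R, ∀ (w : ℝ), ξ F = (w : ℂ) • F → ∀ j : ℕ, w < j * (-(b / N + ζ)) →
        tw Z x N F j = 0) ∧
      (∀ F G j, tw Z x N (F + G) j = tw Z x N F j + tw Z x N G j) ∧
      (∀ F G j, tw Z x N (F * G) j = ∑ i ∈ Finset.range (j + 1),
        (j.choose i : K) * tw Z x N F i * tw Z x N G (j - i))

/-- (WRT) the Wronskian -/
def S_WRT : Prop := ∀ (K : Type) [Field K] [Algebra ℂ K] (R : Subalgebra ℂ K)
  (ξ : Derivation ℂ K K), IsCone R ξ → Normal R → ∀ (Z : Derivation ℂ K K) (x : K) (N : ℕ)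
    (b ζ : ℝ), Comp R Z x N → ξ x = (b : ℂ) • x → ⁅ξ, Z⁆ = (ζ : ℂ) • Z →
      ∀ (n : ℕ) (f : Fin n → K) (w : ℝ), (∀ j, f j ∈ R) → (∀ j, ξ (f j) = (w : ℂ) • f j) →
        wr Z f ≠ 0 → 0 ≤ n * w - (-(b / N + ζ)) * (n * (n - 1) / 2)

/-- (DVZ) the divergence is zero -/
def S_DVZ : Prop := ∀ (K : Type) [Field K] [Algebra ℂ K] (R : Subalgebra ℂ K)
  (ξ : Derivation ℂ K K) (J : Bra K) (a : ℝ), Cone4 R ξ J a → ∀ (Z : Derivation ℂ K K) (x : K)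
    (N : ℕ) (b ζ : ℝ), Comp R Z x N → ξ x = (b : ℂ) • x → ⁅ξ, Z⁆ = (ζ : ℂ) • Z →
      0 < -(b / N + ζ) → ∀ f : Fin 4 → K,
        Z (brk J f) = ∑ i, brk J (Function.update f i (Z (f i))) +
          (1 / (N : K)) * (Z x / x) * brk J f

/-- (KH) a first integral of degree `0` -/
def S_KH : Prop := ∀ (K : Type) [Field K] [Algebra ℂ K] (R : Subalgebra ℂ K)
  (ξ : Derivation ℂ K K) (J : Bra K) (v : RVal K) (a V : ℝ) (H : Fin 1 → Derivation ℂ K K)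
  (c : Fin 1 → ℝ), Cone4 R ξ J a → IsMinF R ξ J v a V → Tor R ξ H c →
    ∀ (Z : Derivation ℂ K K) (κ : ℤ) (x : K) (N : ℕ) (b ζ : ℝ), ⁅H 0, Z⁆ = (κ : ℂ) • Z →
      Comp R Z x N → ξ x = (b : ℂ) • x → ⁅ξ, Z⁆ = (ζ : ℂ) • Z → 0 < -(b / N + ζ) →
        ∃ h, (∀ i, H i h = 0) ∧ Z h = 0 ∧ ¬ Cst h

/-- (DEG) the valuation `wt / d - deg` -/
def S_DEG : Prop := ∀ (K : Type) [Field K] [Algebra ℂ K] (R : Subalgebra ℂ K)
  (ξ : Derivation ℂ K K) (J : Bra K) (a : ℝ), Cone4 R ξ J a → ∀ (Z : Derivation ℂ K K) (x : K)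
    (N : ℕ) (b ζ : ℝ), Z ≠ 0 → Comp R Z x N → ξ x = (b : ℂ) • x → ⁅ξ, Z⁆ = (ζ : ℂ) • Z →
      0 < -(b / N + ζ) → ∃ u : RVal K, (∀ y ∈ R, y ≠ 0 → 0 ≤ u.val y) ∧
        LDLe J u (a / (-(b / N + ζ)) - 1) ∧
        ∀ (F : K) (w : ℝ), F ∈ R → F ≠ 0 → ξ F = (w : ℂ) • F → Z F = 0 →
          u.val F = w / (-(b / N + ζ))

/-- (L2) fractional derivations have degree at least `- a / 2` -/
def S_L2 : Prop := ∀ (K : Type) [Field K] [Algebra ℂ K] (R : Subalgebra ℂ K)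
  (ξ : Derivation ℂ K K) (J : Bra K) (v : RVal K) (a V : ℝ) (H : Fin 1 → Derivation ℂ K K)
  (c : Fin 1 → ℝ), Cone4 R ξ J a → IsMinF R ξ J v a V → QFac R → Tor R ξ H c →
    ∀ (Z : Derivation ℂ K K) (κ : ℤ) (x : K) (N : ℕ) (b ζ : ℝ), Z ≠ 0 →
      ⁅H 0, Z⁆ = (κ : ℂ) • Z → Comp R Z x N → ξ x = (b : ℂ) • x → ⁅ξ, Z⁆ = (ζ : ℂ) • Z →
        -(b / N + ζ) ≤ a / 2

/-! ## Binary forms (L1) -/

/-- (PRM) a permutation which moves all classes -/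
def S_PRM : Prop := ∀ (q : ℕ) (L : Type) (ρ : Fin q → L), (∀ z : L, ∀ S : Finset (Fin q),
  (∀ i ∈ S, ρ i = z) → 2 * S.card ≤ q) → ∃ σ : Equiv.Perm (Fin q), ∀ i, ρ (σ i) ≠ ρ i

/-- (CNT') the content of a product -/
def S_CON : Prop := ∀ (L : Type) [Field L] (V : ValuationSubring L) (q : ℕ) (a b : Fin q → L)
  (c : L) (σ : Equiv.Perm (Fin q)),
    (∀ i, (Polynomial.C c * ∏ j, (Polynomial.C (a j) * Polynomial.X +
      Polynomial.C (b j))).coeff i ∈ V) →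
    c ^ 2 * ∏ i, (a i * b (σ i) - b i * a (σ i)) ∈ V

/-- (NM) forms without a root of large multiplicity -/
def S_NM : Prop := ∀ (K : Type) [Field K] [Algebra ℂ K] (R : Subalgebra ℂ K)
  (ξ : Derivation ℂ K K) (s : ℝ) (D : Fin 2 → Derivation ℂ K K) (P : K), IsCone R ξ → Normal R →
    Fr R ξ s D P → ∀ (f : Polynomial K) (q : ℕ) (M : ℝ), f.natDegree = q → f ≠ 0 →
      (∀ i, ξ (f.coeff i) = (M : ℂ) • f.coeff i) → RegF R D q f →
        (∀ ρ : AlgebraicClosure K,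
          2 * (f.map (algebraMap K (AlgebraicClosure K))).rootMultiplicity ρ ≤ q) →
          q * s ≤ 2 * M

/-- (MAJ) forms with a root of large multiplicity -/
def S_MAJ : Prop := ∀ (K : Type) [Field K] [Algebra ℂ K] (R : Subalgebra ℂ K)
  (ξ : Derivation ℂ K K) (J : Bra K) (v : RVal K) (a V : ℝ) (H : Fin 1 → Derivation ℂ K K)
  (c : Fin 1 → ℝ), Cone4 R ξ J a → IsMinF R ξ J v a V → QFac R → Tor R ξ H c →
    ∀ (s : ℝ) (D : Fin 2 → Derivation ℂ K K) (P : K), Fr R ξ s D P →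
      ∀ (f : Polynomial K) (q : ℕ) (M : ℝ), f.natDegree = q → f ≠ 0 →
        (∀ i, ξ (f.coeff i) = (M : ℂ) • f.coeff i) → RegF R D q f →
          ∀ ρ : AlgebraicClosure K,
            q < 2 * (f.map (algebraMap K (AlgebraicClosure K))).rootMultiplicity ρ →
              q * min (s / 2) (s - a / 2) ≤ M

/-- (L1) the degree of a regular binary form -/
def S_L1 : Prop := ∀ (K : Type) [Field K] [Algebra ℂ K] (R : Subalgebra ℂ K)
  (ξ : Derivation ℂ K K) (J : Bra K) (v : RVal K) (a V : ℝ) (H : Fin 1 → Derivation ℂ K K)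
  (c : Fin 1 → ℝ), Cone4 R ξ J a → IsMinF R ξ J v a V → QFac R → Tor R ξ H c →
    ∀ (s : ℝ) (D : Fin 2 → Derivation ℂ K K) (P : K), Fr R ξ s D P →
      ∀ (f : Polynomial K) (q : ℕ) (M : ℝ), f.natDegree ≤ q → f ≠ 0 →
        (∀ i, ξ (f.coeff i) = (M : ℂ) • f.coeff i) → RegF R D q f →
          q * min (s / 2) (s - a / 2) ≤ M

/-! ## Jets along the leaves -/

/-- (J1) the leading form of `T = ∑ A j ⊗ B j` -/
def S_J1 : Prop := ∀ (K : Type) [Field K] [Algebra ℂ K] (D : Fin 2 → Derivation ℂ K K),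
  (∃ x y : K, ⁅D 0, D 1⁆ = x • D 0 + y • D 1) → ∀ (n : ℕ) (A B : Fin n → K) (q : ℕ),
    (∀ i j, i + j < q → ∑ l, A l * dd D i j (B l) = 0) →
      (∀ w : List (Fin 2), w.length < q → ∑ l, A l * wd D w (B l) = 0) ∧
      (∀ w : List (Fin 2), w.length = q →
        ∑ l, A l * wd D w (B l) = ∑ l, A l * dd D (w.count 0) (w.count 1) (B l)) ∧
      ∀ x y : K, ∑ l, A l * ((x • D 0 + y • D 1 : Derivation ℂ K K) : K → K)^[q] (B l) =
        ∑ i ∈ Finset.range (q + 1), (q.choose i : K) * (∑ l, A l * dd D i (q - i) (B l)) *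
          x ^ i * y ^ (q - i)

/-- (J3) a family of the same degree is independent of the jets -/
def S_J3 : Prop := ∀ (K : Type) [Field K] [Algebra ℂ K] (ξ : Derivation ℂ K K)
  (D : Fin 2 → Derivation ℂ K K), (∀ i, ⁅ξ, D i⁆ = 0) →
    (∀ h, ξ h = 0 → D 0 h = 0 → D 1 h = 0 → Cst h) → ∀ (n : ℕ) (A B : Fin n → K) (m : ℝ),
      (∀ l, ξ (B l) = (m : ℂ) • B l) → LinearIndependent ℂ B →
        (∀ w : List (Fin 2), ∑ l, A l * wd D w (B l) = 0) → A = 0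

/-- (J2) the count -/
def S_J2 : Prop := ∀ (K : Type) [Field K] [Algebra ℂ K] (R : Subalgebra ℂ K)
  (ξ : Derivation ℂ K K) (J : Bra K) (v : RVal K) (a V : ℝ) (H : Fin 1 → Derivation ℂ K K)
  (c : Fin 1 → ℝ), Cone4 R ξ J a → IsMinF R ξ J v a V → Tor R ξ H c →
    ∀ D : Fin 2 → Derivation ℂ K K, (∀ i, ⁅ξ, D i⁆ = 0) →
      (∃ x y : K, ⁅D 0, D 1⁆ = x • D 0 + y • D 1) → ∀ A₀ : ℝ, 0 < A₀ →
        ∃ (m : ℝ) (n q : ℕ) (A B : Fin n → K), 0 < m ∧ A₀ * m ≤ q ∧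
          (∀ l, A l ∈ R ∧ ξ (A l) = (m : ℂ) • A l) ∧ (∀ l, B l ∈ R ∧ ξ (B l) = (m : ℂ) • B l) ∧
          LinearIndependent ℂ B ∧ A ≠ 0 ∧ ∀ i j, i + j < q → ∑ l, A l * dd D i j (B l) = 0

/-- (JET) a plane field without first integrals of degree `0` has regular forms of large degree and
small weight -/
def S_JET : Prop := ∀ (K : Type) [Field K] [Algebra ℂ K] (R : Subalgebra ℂ K)
  (ξ : Derivation ℂ K K) (J : Bra K) (v : RVal K) (a V : ℝ) (H : Fin 1 → Derivation ℂ K K)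
  (c : Fin 1 → ℝ), Cone4 R ξ J a → IsMinF R ξ J v a V → Tor R ξ H c →
    ∀ D : Fin 2 → Derivation ℂ K K, (∀ i, ⁅ξ, D i⁆ = 0) →
      (∃ x y : K, ⁅D 0, D 1⁆ = x • D 0 + y • D 1) →
      (∀ h, ξ h = 0 → D 0 h = 0 → D 1 h = 0 → Cst h) → ∀ ε : ℝ, 0 < ε →
        ∃ (f : Polynomial K) (q : ℕ) (M : ℝ), 0 < q ∧ f.natDegree ≤ q ∧ f ≠ 0 ∧
          (∀ i, ξ (f.coeff i) = (M : ℂ) • f.coeff i) ∧ RegF R D q f ∧ M < ε * q

/-! ## The end -/

/-- (UNT) a prime divisor does not contain all homogeneous functions of positive degree -/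
def S_UNT : Prop := ∀ (K : Type) [Field K] [Algebra ℂ K] (R : Subalgebra ℂ K)
  (ξ : Derivation ℂ K K) (J : Bra K) (a : ℝ), Cone4 R ξ J a → ∀ u, PDiv R u →
    ∃ (f : K) (w : ℝ), f ∈ R ∧ f ≠ 0 ∧ 0 < w ∧ ξ f = (w : ℂ) • f ∧ u.val f = 0

/-- (XI0) the Reeb field is not tangent to the plane field, if the degree is `- a` -/
def S_XI0 : Prop := ∀ (K : Type) [Field K] [Algebra ℂ K] (R : Subalgebra ℂ K)
  (ξ : Derivation ℂ K K) (J : Bra K) (v : RVal K) (a V : ℝ) (H : Fin 1 → Derivation ℂ K K)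
  (c : Fin 1 → ℝ), Cone4 R ξ J a → IsMinF R ξ J v a V → QFac R → Tor R ξ H c →
    ∀ (D : Fin 2 → Derivation ℂ K K) (P : K), Fr R ξ a D P → ¬ ∃ x y : K, ξ = x • D 0 + y • D 1

/-- closed 2-forms on a Q-factorial cone -/
def S_FMQ : Prop := ∀ (K : Type) [Field K] [Algebra ℂ K] (R : Subalgebra ℂ K)
  (ξ : Derivation ℂ K K) (J : Bra K) (v : RVal K) (a V : ℝ), Cone4 R ξ J a →
    IsMinF R ξ J v a V → QFac R → ∀ (ω : Form K) (k : ℝ), IsReg R ω → Closed ω →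
      HomForm ξ k ω → ω ≠ 0 → a ≤ 2 * k

end Pool.Agent.Helper88.D4
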