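import Pool.Agent.Helper88.D4.Clo
import Pool.Agent.Helper88.D4.Stmts4

/-!
# Project D4 (MP_e1889a_ag): assembly of the form for germs
-/

set_option autoImplicit false

namespace Pool.Agent.Helper88.D4

open Module Filter Topology IsLocalRing Pool.Agent.Helper37.SD Pool.Agent.Helper20.TS
  Pool.Agent.Helper11.SY Pool.Agent.Helper20.LT

section Cone

variable {K : Type} [Field K] [Algebra ℂ K]

/-- 1-forms which are multiples of `dh` -/
theorem tail (hQ : S_Q) (hP : S_P) (hPn : S_Pn) {R : Subalgebra ℂ K} {ξ : Derivation ℂ K K}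
    {J : Bra K} {v : RVal K} {a V : ℝ} {r : ℕ} {H : Fin r → Derivation ℂ K K} {c : Fin r → ℝ}
    (hC : Cone4 R ξ J a) (hM : IsMinF R ξ J v a V) (hX : QFac R ∨ FGen R ξ) (hT : Tor R ξ H c)
    {χ : Fin r → ℤ} {α : Helper88.D4.One K} (hα : Al R ξ H χ α) {h b : K} (hh : ∀ i, H i h = 0)
    (hcst : ¬ Cst h) (hb : ∀ D, α D = b * D h) : a ≤ 2 * ∑ i, c i * χ i := by
  set k : ℝ := ∑ i, c i * χ i with hk
  have hξh : ξ h = 0 := hT.xi_inv hh
  obtain ⟨D, hD⟩ : ∃ D, α D ≠ 0 := by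
    by_contra hall
    push Not at hall
    exact hα.ne (LinearMap.ext hall)
  have hb0 : b ≠ 0 := by
    rintro rfl
    exact hD (by rw [hb, zero_mul])
  have hDh : D h ≠ 0 := fun h0 => hD (by rw [hb, h0, mul_zero])
  have hξb : ξ b = (k : ℂ) • b := by
    have e := Al.xi_wt hT hα D
    rw [hb, hb, Derivation.commutator_apply, hξh, map_zero, sub_zero, Derivation.leibniz,
      smul_eq_mul, smul_eq_mul] at e
    have e2 : ξ b * D h = ((k : ℂ) • b) * D h := by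
      rw [smul_mul_assoc, ← e]
      ring
    exact mul_right_cancel₀ hDh e2
  rcases hX with hX | hX
  · obtain ⟨l, f, g, m, hl, hf, hg, hf0, hg0, hfm, hgm, hfg, hm, hcop⟩ :=
      hQ K R ξ J a r H c hC hX hT h hh hcst
    have hh0 : h ≠ 0 := by
      rintro rfl
      exact hcst ⟨0, by rw [map_zero]⟩
    have hlK : (l : K) ≠ 0 := by
      have : CharZero K := charZero_of_injective_algebraMap (algebraMap ℂ K).injective
      exact_mod_cast hl.ne'
    have hcfg : ¬ Cst (f / g) := by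
      rintro ⟨t, ht⟩
      rw [← hfg] at ht
      refine hcst (Pool.Agent.Helper12.D4.cst_of_algebraic
        ⟨Polynomial.X ^ l - Polynomial.C t, Polynomial.X_pow_sub_C_ne_zero hl t, ?_⟩)
      rw [map_sub, map_pow, Polynomial.aeval_X, Polynomial.aeval_C, ht, sub_self]
    refine hP K R ξ J v a V hC hM.toMin f g (b / (l * h ^ (l - 1))) _ k α hf hg hf0 hg0 hm
      (hT.xi_w hfm) (hT.xi_w hgm) hcop hcfg (div_ne_zero hb0 (mul_ne_zero hlK
        (pow_ne_zero _ hh0))) ?_ ?_ hα.reg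
    · rw [der_div ξ _ _ (mul_ne_zero hlK (pow_ne_zero _ hh0))]
      have e1 : ξ ((l : K) * h ^ (l - 1)) = 0 := by
        rw [Derivation.leibniz, Derivation.leibniz_pow, hξh, smul_zero, smul_zero, smul_zero,
          Derivation.map_natCast, smul_zero, add_zero]
      rw [e1, mul_zero, sub_zero, hξb, mul_div_mul_left _ _ (mul_ne_zero hlK
        (pow_ne_zero _ hh0)), smul_div_assoc]
    · intro D'
      rw [← hfg, Derivation.leibniz_pow, hb, smul_eq_mul, nsmul_eq_mul]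
      field_simp
  · exact hPn K R ξ J v a V hC hM h b k α hξh hcst (hX h hξh hcst) hb0 hξb hb hα.reg

/-- the Reeb field of a cone of dimension 4 is not zero -/
theorem xi_ne {R : Subalgebra ℂ K} {ξ : Derivation ℂ K K} {J : Bra K} {a : ℝ}
    (hC : Cone4 R ξ J a) : ξ ≠ 0 := by
  rintro rfl
  obtain ⟨x, y, z, w, hne⟩ := hC.alt.ne
  apply hne
  obtain ⟨p, hp, q, hq, _, hx⟩ := hC.frac x
  obtain ⟨s, hs⟩ := hC.const p hp rfl
  obtain ⟨t, ht⟩ := hC.const q hq rfl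
  rw [hx, hs, ht, ← map_div₀]
  exact (J y z w).map_algebraMap _

/-- forms of weight `0` -/
theorem fm_zero (hT1 : S_T1s) (hT2 : S_T2s) (hB : S_B1s) (hQ : S_Q) (hP : S_P) (hPn : S_Pn)
    {R : Subalgebra ℂ K} {ξ : Derivation ℂ K K}
    {J : Bra K} {v : RVal K} {a V : ℝ} {r : ℕ} {H : Fin r → Derivation ℂ K K} {c : Fin r → ℝ}
    (hC : Cone4 R ξ J a) (hM : IsMinF R ξ J v a V) (hX : QFac R ∨ FGen R ξ) (hT : Tor R ξ H c)
    (hr : 2 ≤ r) {E : Derivation ℂ K K} (hE : Pres R E) {e : Fin r → ℂ} (hHE : ∀ i, ⁅H i, E⁆ = 0)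
    (hnil : ∀ x ∈ R, ∃ n : ℕ, ((E - ∑ i, e i • H i : Derivation ℂ K K) : K → K)^[n] x = 0)
    {ω : Form K} (hreg : IsReg R ω) (hcl : Closed ω) (hhom : HomForm ξ 0 ω)
    (hEω : HomForm E 1 ω) (hω : ω ≠ 0) : False := by
  obtain ⟨ω', χ, hreg', hcl', hω', hhom', hχ, he⟩ :=
    hT1 K R ξ J a r H c hC hT E e hE hHE hnil ω 0 hreg hcl hhom hEω hω
  have hχ0 : χ ≠ 0 := by
    rintro rfl
    simp at he
  obtain ⟨α, hα, hαH⟩ := hT2 K R ξ J a r H c hC hT ω' χ hreg' hcl' hω' hhom' hχ0 hχ hM.apos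
  obtain ⟨h, hh, hcst, b, hb⟩ := hB K R ξ J v a V r H c hC hM hT hr χ α hα hχ0 hχ hαH
  have h1 := tail hQ hP hPn hC hM hX hT hα hh hcst hb
  rw [hχ, mul_zero] at h1
  exact absurd hM.apos (not_lt.mpr h1)

/-- 2-forms and Liouville fields -/
theorem fm_lio (hFM : S_FMc) (hR1 : S_R1s) (hR2 : S_R2) (hT1 : S_T1s) (hT2 : S_T2s)
    (hB : S_B1s) (hQ : S_Q) (hP : S_P) (hPn : S_Pn) (hCF : S_CF)
    {R : Subalgebra ℂ K} {ξ : Derivation ℂ K K}
    {J : Bra K} {v : RVal K} {a V : ℝ} (hC : Cone4 R ξ J a) (hM : IsMinF R ξ J v a V)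
    (hX : QFac R ∨ CoxFG R) {ω : Form K} {k : ℝ} (hreg : IsReg R ω) (hcl : Closed ω)
    (hhom : HomForm ξ k ω) (hω : ω ≠ 0)
    (hT : (∃ E : Derivation ℂ K K, Pres R E ∧ ⁅ξ, E⁆ = 0 ∧ HomForm E 1 ω ∧ HomBra E 2 J) ∨
      (k ≠ 0 ∧ ∃ (r : ℕ) (H : Fin r → Derivation ℂ K K) (c : Fin r → ℝ), 2 ≤ r ∧
        Tor R ξ H c)) : a ≤ 2 * k := by
  rcases hT with ⟨E, hE, hEξ, hEω, hEJ⟩ | ⟨hk, r, H, c, hr, hT⟩
  · obtain ⟨r, H, c, e, hT, _, hHE, hnil⟩ := hR1 K R ξ hC.toIsCone E hE hEξ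
    by_cases hr : 2 ≤ r
    · by_cases hk : k = 0
      · subst hk
        exact (fm_zero hT1 hT2 hB hQ hP hPn hC hM
          (hX.imp id fun h => hCF K R ξ hC.toIsCone hC.normal h) hT hr hE hHE hnil hreg hcl hhom
          hEω hω).elim
      · exact hFM K R ξ J v a V r H c hC hM hX hT hr ω k hreg hcl hhom hω hk
    · have hμ : ∃ μ : ℂ, (∑ i, e i • H i : Derivation ℂ K K) = μ • ξ := by
        have hr' : r = 0 ∨ r = 1 := by omega
        rcases hr' with rfl | rfl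
        · exact ⟨0, by rw [zero_smul]; simp⟩
        · have h1 : ξ = (c 0 : ℂ) • H 0 := by
            conv_lhs => rw [hT.xi]
            simp
          have hc0 : (c 0 : ℂ) ≠ 0 := by
            intro h0
            rw [h0, zero_smul] at h1
            exact xi_ne hC h1
          refine ⟨e 0 / c 0, ?_⟩
          rw [h1, smul_smul, div_mul_cancel₀ _ hc0]
          simp
      obtain ⟨μ, hμ⟩ := hμ
      rw [hμ] at hnil
      exact (hR2 K R ξ J a hC E μ hE hnil hEJ ω k hreg hhom hEω hω).ge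
  · exact hFM K R ξ J v a V r H c hC hM hX hT hr ω k hreg hcl hhom hω hk

end Cone

/-- The main theorem for germs of dimension 4. -/
theorem germ_four (hFM : S_FMc) (hR1 : S_R1s) (hR2 : S_R2) (hT1 : S_T1s) (hT2 : S_T2s)
    (hB : S_B1s) (hQ : S_Q) (hP : S_P) (hPn : S_Pn) (hCF : S_CF) (hORD : S_ORD) (hPOI : S_POI)
    (hOM : S_OM)
    (R : Type) [CommRing R] [Algebra ℂ R] [IsDomain R] [IsLocalRing R]
    [IsNoetherianRing R] [IsAdicComplete (maximalIdeal R) R]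
    (hres : ∀ f : R, ∃ c : ℂ, f - algebraMap ℂ R c ∈ maximalIdeal R)
    (hdim : ringKrullDim R = 4)
    (S : Symp R 2) (w : CVal R) (A : ℝ) (hw : IsMinimizer S w A)
    (K : Type) [Field K] [Algebra ℂ K] (R₀ : Subalgebra ℂ K) (ξ : Derivation ℂ K K)
    (sym : ℝ → R → K) (hgr : GrL w R₀ ξ sym) (J : Bra K) (hJ : LeadTh S w A sym J)
    (hcone : Cone4 R₀ ξ J A) (v₀ : RVal K) (V : ℝ) (hmin : IsMinF R₀ ξ J v₀ A V)
    (hX₀ : QFac R₀ ∨ CoxFG R₀)
    (hT : (∃ E : Derivation ℂ R R, (∀ f ∈ maximalIdeal R, E f ∈ maximalIdeal R) ∧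
        Liouville S E) ∨
      ((∃ b < A, OrderGe S w b) ∧ ∃ (r : ℕ) (H : Fin r → Derivation ℂ K K) (c : Fin r → ℝ),
        2 ≤ r ∧ Tor R₀ ξ H c)) : OrderGe S w (A / 2) := by
  have hm : ∃ f ∈ maximalIdeal R, f ≠ 0 := exists_nonzero (n := 2) (by norm_num) (by
    rw [hdim]
    rfl)
  obtain ⟨s, hs, f, g, hfg, hfgs⟩ :=
    hORD R hres S w A hw.disc hm K R₀ ξ sym hgr hcone.toIsCone
  obtain ⟨h, hh, hlio⟩ := hPOI R hres S w A hw.disc K R₀ ξ sym hgr J hJ hcone s hs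
    ⟨f, g, hfg, hfgs⟩
  obtain ⟨ω, hreg, hcl, hhom, hω, hEω⟩ := hOM K R₀ ξ J A s h hcone hh
  have key : A ≤ 2 * (A - s) := by
    refine fm_lio hFM hR1 hR2 hT1 hT2 hB hQ hP hPn hCF hcone hmin hX₀ hreg hcl hhom hω ?_
    rcases hT with ⟨E, hEm, hL⟩ | ⟨⟨b, hb, hOb⟩, hr⟩
    · left
      have hEv : ∀ f, w.v f ≤ w.v (E f) := fun f =>
        der_val hres w (fun σ f => inv_aut hw hm σ f) E hEm f
      obtain ⟨E₀, h1, h2, h3, h4⟩ := hlio E hL hEv
      exact ⟨E₀, h1, h2, hEω E₀ h1 h2 h3 h4, h3⟩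
    · right
      refine ⟨?_, hr⟩
      have h1 := hOb f g
      rw [hfgs] at h1
      obtain ⟨y, hy⟩ := real_val w hfg
      rw [hy, ← WithTop.coe_add, ← WithTop.coe_add, WithTop.coe_le_coe] at h1
      intro h0
      linarith
  intro f g
  refine (hs f g).trans (add_le_add le_rfl ?_)
  rw [WithTop.coe_le_coe]
  linarith

end Pool.Agent.Helper88.D4
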