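import Pool.Agent.Helper88.D4.Stmts2

/-!
# Project D4 (MP_e1889a_ag): Cox algebras instead of (TOR) and (FG)
-/

set_option autoImplicit false

namespace Pool.Agent.Helper88.D4

open Module Filter Topology Pool.Agent.Helper37.SD Pool.Agent.Helper20.TS

section Notions

variable {K : Type} [Field K] [Algebra ℂ K]

/-- The valuations `u` and `w` are different. -/
def Dist (u w : RVal K) : Prop := ∃ y, y ≠ 0 ∧ u.val y ≠ w.val y

/-- The global sections of `O(∑ n i • D i)`, where `D i` is the prime divisor with valuation `u i`: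
the functions `x` with `u i x ≥ - n i` and `w x ≥ 0` for all other prime divisors `w`. -/
def Sd (R : Subalgebra ℂ K) {p : ℕ} (u : Fin p → RVal K) (n : Fin p → ℤ) : Submodule ℂ K where
  carrier := {x | (∀ i, (u i).Ge (-(n i : ℝ)) x) ∧
    ∀ w, PDiv R w → (∀ i, Dist w (u i)) → w.Ge 0 x}
  add_mem' := fun hx hy => ⟨fun i => (u i).ge_add (hx.1 i) (hy.1 i),
    fun w hw h => w.ge_add (hx.2 w hw h) (hy.2 w hw h)⟩
  zero_mem' := ⟨fun _ => Or.inl rfl, fun _ _ _ => Or.inl rfl⟩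
  smul_mem' := fun z _ hx => ⟨fun i => (u i).ge_smul z (hx.1 i),
    fun w hw h => w.ge_smul z (hx.2 w hw h)⟩

/-- For prime divisors `D i` the algebra `⊕ n, H⁰(O(∑ n i • D i))` is finitely generated: there are
finitely many sections `x l` of `O(∑ m l i • D i)` such that all sections are combinations of
monomials in the `x l`. -/
def CoxFG (R : Subalgebra ℂ K) : Prop := ∀ (p : ℕ) (u : Fin p → RVal K), (∀ i, PDiv R (u i)) →
  (∀ i j, i ≠ j → Dist (u i) (u j)) → ∃ (N : ℕ) (x : Fin N → K) (m : Fin N → Fin p → ℤ),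
    (∀ l, x l ∈ Sd R u (m l)) ∧ ∀ n : Fin p → ℤ, ∀ y ∈ Sd R u n,
      y ∈ Submodule.span ℂ {z | ∃ a : Fin N → ℕ, (∀ i, ∑ l, (a l : ℤ) * m l i = n i) ∧
        z = ∏ l, x l ^ a l}

end Notions

/-- finitely generated Cox algebras give (FG) -/
def S_CF : Prop := ∀ (K : Type) [Field K] [Algebra ℂ K] (R : Subalgebra ℂ K)
  (ξ : Derivation ℂ K K), IsCone R ξ → Normal R → CoxFG R → FGen R ξ

/-- Gordan's theorem of the alternative for integral vectors -/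
def S_GOR : Prop := ∀ (N q : ℕ) (γ : Fin N → Fin q → ℤ),
  (∀ a : Fin N → ℕ, (∀ i, ∑ l, (a l : ℤ) * γ l i = 0) → ∀ l, a l = 0) →
    ∃ t : Fin q → ℤ, ∀ l, 0 < ∑ i, t i * γ l i

/-- The residues of a torus-invariant 1-form with simple poles along the zeros of `s` are equal, or
there is a function with zeros and poles only at the zeros of `s`, of different orders. -/
def S_RES : Prop := ∀ (K : Type) [Field K] [Algebra ℂ K] (R : Subalgebra ℂ K)
  (ξ : Derivation ℂ K K) (J : Bra K) (a : ℝ) (r : ℕ) (H : Fin r → Derivation ℂ K K)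
  (c : Fin r → ℝ), Cone4 R ξ J a → CoxFG R → Tor R ξ H c → ∀ (s : K) (χ : Fin r → ℤ), s ∈ R →
    s ≠ 0 → IsW H χ s → (∀ u, PDiv R u → u.val s = 0 ∨ u.val s = 1) → ∀ η : One K,
      (∀ i D, H i (η D) = η ⁅H i, D⁆) → (∀ i, Cst (η (H i))) → ∀ e : RVal K → ℂ,
        (∀ u, PDiv R u → ∀ D, Pres R D → u.Ge 0 (η D - e u • (D s / s))) →
          (∀ u u', PDiv R u → PDiv R u' → u.val s = 1 → u'.val s = 1 → e u = e u') ∨
            ∃ φ : K, φ ≠ 0 ∧ (∀ u, PDiv R u → u.val s = 0 → u.val φ = 0) ∧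
              ∃ u u', PDiv R u ∧ PDiv R u' ∧ u.val s = 1 ∧ u'.val s = 1 ∧ u.val φ ≠ u'.val φ

/-- case A -/
def S_Ac : Prop := ∀ (K : Type) [Field K] [Algebra ℂ K] (R : Subalgebra ℂ K)
  (ξ : Derivation ℂ K K) (J : Bra K) (v : RVal K) (a V : ℝ) (r : ℕ)
  (H : Fin r → Derivation ℂ K K) (c : Fin r → ℝ), Cone4 R ξ J a → IsMin R ξ J v a V → CoxFG R →
    Tor R ξ H c → ∀ (χ : Fin r → ℤ) (α : One K), Al R ξ H χ α → ∑ i, c i * χ i ≠ 0 →
      (∃ j, α (H j) ≠ 0) → a ≤ 2 * ∑ i, c i * χ i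

/-- 1-forms, with Cox algebras -/
def S_CMc : Prop := ∀ (K : Type) [Field K] [Algebra ℂ K] (R : Subalgebra ℂ K)
  (ξ : Derivation ℂ K K) (J : Bra K) (v : RVal K) (a V : ℝ) (r : ℕ)
  (H : Fin r → Derivation ℂ K K) (c : Fin r → ℝ), Cone4 R ξ J a → IsMinF R ξ J v a V →
    QFac R ∨ CoxFG R → Tor R ξ H c → 2 ≤ r → ∀ (χ : Fin r → ℤ) (α : One K),
      Al R ξ H χ α → ∑ i, c i * χ i ≠ 0 → a ≤ 2 * ∑ i, c i * χ i

/-- 2-forms, with Cox algebras -/
def S_FMc : Prop := ∀ (K : Type) [Field K] [Algebra ℂ K] (R : Subalgebra ℂ K)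
  (ξ : Derivation ℂ K K) (J : Bra K) (v : RVal K) (a V : ℝ) (r : ℕ)
  (H : Fin r → Derivation ℂ K K) (c : Fin r → ℝ), Cone4 R ξ J a → IsMinF R ξ J v a V →
    QFac R ∨ CoxFG R → Tor R ξ H c → 2 ≤ r → ∀ (ω : Form K) (k : ℝ), IsReg R ω →
      Closed ω → HomForm ξ k ω → ω ≠ 0 → k ≠ 0 → a ≤ 2 * k

end Pool.Agent.Helper88.D4
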