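import Pool.Agent.Helper88.D4.Stmts2

/-!
# Project D4 (MP_e1889a_ag): the degeneration of a symplectic form in dimension 4
-/

set_option autoImplicit false

namespace Pool.Agent.Helper88.D4

open Module Filter Topology Pool.Agent.Helper37.SD Pool.Agent.Helper20.TS

variable {K : Type} [Field K] [Algebra ℂ K] {K₀ : Type} [Field K₀] [Algebra ℂ K₀]
  {R : Subalgebra ℂ K} {v : RVal K} {R₀ : Subalgebra ℂ K₀} {ξ : Derivation ℂ K₀ K₀}
  {sym : ℝ → K → K₀}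

/-- The degeneration of a closed form is closed and homogeneous. -/
theorem degen_closed_hom (hR : IsFrac R) (hgr : IsGr R v R₀ ξ sym) {n : ℕ}
    {g : Fin n → K} {D : Fin n → Derivation ℂ K K} {D₀ : Fin n → Derivation ℂ K₀ K₀}
    (hD : IsFrame D g) (hD₀ : IsFrame D₀ (fun i => sym (v.val (g i)) (g i)))
    (hind : ∀ i, Induces v sym (D i) (D₀ i)) {ω : Form K} (hcl : Closed ω)
    {ω₀ : Form K₀} {k : ℝ} (hdeg : IsDegen v sym ω k ω₀) (hreg : IsReg R₀ ω₀) :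
    Closed ω₀ ∧ HomForm ξ k ω₀ := by
  have hξ : ∀ i, ⁅ξ, D₀ i⁆ = 0 := fun i =>
    hD₀.comm (c := fun i => ((v.val (g i) : ℝ) : ℂ)) (fun i => hgr.eig hR _ (Or.inr le_rfl)) i
  have hcomm : ∀ {F : Type} [Field F] [Algebra ℂ F] {D : Fin n → Derivation ℂ F F}
      {g : Fin n → F}, IsFrame D g → ∀ i j, ⁅D i, D j⁆ = 0 := by
    intro F _ _ D g hD i j
    refine hD.comm (c := fun l => if i = l then 1 else 0) (fun l => ?_) j
    rw [hD.apply]
    by_cases hil : i = l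
    · simp [hil]
    · simp [hil]
  have hge : ∀ i j, v.Ge k (ω (D i) (D j)) := fun i j => hdeg.ge _ _ _ _ (hind i) (hind j)
  have hlead : ∀ i j, ω₀ (D₀ i) (D₀ j) = sym k (ω (D i) (D j)) :=
    fun i j => hdeg.lead _ _ _ _ (hind i) (hind j)
  have hgeD : ∀ i c x, v.Ge c x → v.Ge c (D i x) := by
    intro i c x hx
    by_cases hx0 : x = 0
    · rw [hx0, map_zero]
      exact Or.inl rfl
    · exact v.ge_mono (hx.resolve_left hx0) ((hind i).1 x hx0)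
  refine ⟨closed_of_frame hreg.alt hD₀ fun i j l => ?_, ?_⟩
  · have e := hcl (D i) (D j) (D l)
    rw [hcomm hD i j, hcomm hD i l, hcomm hD j l] at e
    simp only [map_zero, LinearMap.zero_apply, sub_zero, add_zero] at e
    have e' := congrArg (sym k) e
    rw [hgr.zero, hgr.add _ _ _ (v.ge_sub (hgeD i _ _ (hge j l)) (hgeD j _ _ (hge i l)))
      (hgeD l _ _ (hge i j)), hgr.sub _ (hgeD i _ _ (hge j l)) (hgeD j _ _ (hge i l)),
      ← (hind i).2 _ _ (hge j l), ← (hind j).2 _ _ (hge i l), ← (hind l).2 _ _ (hge i j),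
      ← hlead, ← hlead, ← hlead] at e'
    simp only [dform]
    rw [hcomm hD₀ i j, hcomm hD₀ i l, hcomm hD₀ j l]
    simp only [map_zero, LinearMap.zero_apply, sub_zero, add_zero]
    exact e'
  · have key := form_ext_frame hD₀ (α := Lf ξ ω₀) (β := algebraMap ℂ K₀ (k : ℂ) • ω₀)
      (fun i j => by
        rw [Lf_apply, hξ i, hξ j, map_zero, LinearMap.zero_apply, map_zero, sub_zero, sub_zero,
          hlead, hgr.eig hR k (hge i j), ← hlead]
        rw [LinearMap.smul_apply, LinearMap.smul_apply, algebraMap_smul])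
    intro A B
    have := key A B
    rw [LinearMap.smul_apply, LinearMap.smul_apply, algebraMap_smul] at this
    exact this

/-- The symbol of the Pfaffian. -/
theorem sym_pf (hgr : IsGr R v R₀ ξ sym) {ω : Form K} {ω₀ : Form K₀} {k : ℝ}
    (hdeg : IsDegen v sym ω k ω₀) {D : Fin 4 → Derivation ℂ K K}
    {D₀ : Fin 4 → Derivation ℂ K₀ K₀} (hind : ∀ i, Induces v sym (D i) (D₀ i)) :
    v.Ge (k + k) (pf ω D) ∧ pf ω₀ D₀ = sym (k + k) (pf ω D) := by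
  have hge : ∀ i j, v.Ge k (ω (D i) (D j)) := fun i j => hdeg.ge _ _ _ _ (hind i) (hind j)
  have hlead : ∀ i j, ω₀ (D₀ i) (D₀ j) = sym k (ω (D i) (D j)) :=
    fun i j => hdeg.lead _ _ _ _ (hind i) (hind j)
  have h1 := v.ge_mul (hge 0 1) (hge 2 3)
  have h2 := v.ge_mul (hge 0 2) (hge 1 3)
  have h3 := v.ge_mul (hge 0 3) (hge 1 2)
  refine ⟨v.ge_add (v.ge_sub h1 h2) h3, ?_⟩
  rw [pf, pf, hgr.add _ _ _ (v.ge_sub h1 h2) h3, hgr.sub _ h1 h2, hgr.mul _ _ _ _ (hge 0 1) (hge 2 3),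
    hgr.mul _ _ _ _ (hge 0 2) (hge 1 3), hgr.mul _ _ _ _ (hge 0 3) (hge 1 2)]
  simp only [hlead]

/-- The main theorem: dimension 4. -/
theorem degen_four (hFM : S_FMn) (hR1 : S_R1) (hR2 : S_R2) (hPF : S_PF) (hND : S_ND)
    (hR : IsFrac R) (hgr : IsGr R v R₀ ξ sym) (hq : QuasiMonomial 4 v sym)
    {v₀ : RVal K₀} {J : Bra K₀} {a V : ℝ} (hcone : Cone4 R₀ ξ J a)
    (hmin : IsMinF R₀ ξ J v₀ a V) (hX₀ : QFac R₀ ∨ (Tors R₀ ∧ FGen R₀ ξ))
    {ω : Form K} (hcl : Closed ω)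
    (hJ : ∀ (D : Fin 4 → Derivation ℂ K K) (D₀ : Fin 4 → Derivation ℂ K₀ K₀),
      (∀ i, Induces v sym (D i) (D₀ i)) → v.Ge a (pf ω D) ∧
        ∀ f, brk J f * sym a (pf ω D) = dt D₀ f)
    {ω₀ : Form K₀} {k : ℝ} (hdeg : IsDegen v sym ω k ω₀) (hreg : IsReg R₀ ω₀) (hk : k ≠ 0)
    {E : Derivation ℂ K₀ K₀} (hE : Pres R₀ E) (hEξ : ⁅ξ, E⁆ = 0) (hEω : HomForm E 1 ω₀)
    (hEJ : HomBra E 2 J) :
    k = a / 2 ∧ IsNondeg R₀ ω₀ ∧ Closed ω₀ ∧ HomForm ξ k ω₀ := by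
  obtain ⟨g, D, D₀, hD, hD₀, hind⟩ := hq
  obtain ⟨hcl₀, hhom⟩ := degen_closed_hom hR hgr hD hD₀ hind hcl hdeg hreg
  obtain ⟨hpa, hJf⟩ := hJ D D₀ hind
  obtain ⟨hp2, hpf⟩ := sym_pf hgr hdeg hind
  -- the symbol of the Pfaffian is not zero
  set z : Fin 4 → K₀ := fun i => sym (v.val (g i)) (g i) with hz
  have hdt : dt D₀ z ≠ 0 := by
    have e : (Matrix.of fun i j => D₀ i (z j)) = Matrix.diagonal z := by
      ext i j
      rw [Matrix.of_apply, hD₀.apply i j, Matrix.diagonal_apply]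
      split_ifs with hij
      · rw [hij]
      · rfl
    rw [dt, e, Matrix.det_diagonal]
    exact Finset.prod_ne_zero_iff.mpr fun i _ => hD₀.ne i
  have hs : sym a (pf ω D) ≠ 0 := by
    intro h0
    apply hdt
    rw [← hJf z, h0, mul_zero]
  have hval : pf ω D ≠ 0 ∧ v.val (pf ω D) = a := by
    have h1 : ¬ (pf ω D = 0 ∨ a < v.val (pf ω D)) := fun h => hs ((hgr.zero_iff _ _ hpa).mpr h)
    rw [not_or] at h1
    exact ⟨h1.1, le_antisymm (not_lt.mp h1.2) (hpa.resolve_left h1.1)⟩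
  have hle : k + k ≤ a := by
    have := hp2.resolve_left hval.1
    rwa [hval.2] at this
  have hge : a ≤ 2 * k := by
    rcases hR1 K₀ R₀ ξ hcone.toIsCone E hE hEξ with ⟨r, H, c, hr, hT⟩ | ⟨μ, hμ⟩
    · exact hFM K₀ R₀ ξ J v₀ a V r H c hcone hmin hX₀ hT hr ω₀ k hreg hcl₀ hhom hdeg.ne hk
    · exact (hR2 K₀ R₀ ξ J a hcone E μ hE hμ hEJ ω₀ k hreg hhom hEω hdeg.ne).ge
  have hka : k = a / 2 := by linarith
  have hkk : k + k = a := by linarith
  rw [hkk] at hpf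
  refine ⟨hka, ?_, hcl₀, hhom⟩
  obtain ⟨c, _, hc, _⟩ := hPF K₀ R₀ ξ J a hcone ω₀ hreg
  have hc1 : c = 1 := by
    have h1 := hc D₀ z
    rw [hpf, hJf z] at h1
    exact mul_right_cancel₀ hdt (h1.trans (one_mul _).symm)
  refine hND K₀ R₀ ξ J a hcone ω₀ hreg 1 one_ne_zero fun D' f => ?_
  rw [map_one, ← hc1]
  exact hc D' f

end Pool.Agent.Helper88.D4
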