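import Pool.Agent.Helper88.D4.CM
import Pool.Agent.Helper88.D4.Stmts3
import Pool.Agent.Helper88.D4.X

/-!
# Project D4 (MP_e1889a_ag): assembly, version with Cox algebras
-/

set_option autoImplicit false

namespace Pool.Agent.Helper88.D4

open Module Filter Topology Pool.Agent.Helper37.SD Pool.Agent.Helper20.TS

/-- 1-forms which vanish on the torus -/
theorem cm_b (hB : S_B1n) (hQ : S_Q) (hP : S_P) (hPn : S_Pn) (K : Type) [Field K] [Algebra ℂ K]
    (R : Subalgebra ℂ K) (ξ : Derivation ℂ K K) (J : Bra K) (v : RVal K) (a V : ℝ) (r : ℕ)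
    (H : Fin r → Derivation ℂ K K) (c : Fin r → ℝ) (hC : Cone4 R ξ J a)
    (hM : IsMinF R ξ J v a V) (hX : QFac R ∨ FGen R ξ) (hT : Tor R ξ H c) (hr : 2 ≤ r)
    (χ : Fin r → ℤ) (α : One K) (hα : Al R ξ H χ α) (hχ : ∑ i, c i * χ i ≠ 0)
    (hj : ∀ j, α (H j) = 0) : a ≤ 2 * ∑ i, c i * χ i := by
  by_contra hcon
  have hlt := lt_of_not_ge hcon
  obtain ⟨h, hh, hcst, b, hb⟩ := hB K R ξ J v a V r H c hC hM hT hr χ α hα hχ hj hlt
  set k : ℝ := ∑ i, c i * χ i with hk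
  have hξh : ξ h = 0 := hT.xi_inv hh
  obtain ⟨D, hD⟩ : ∃ D, α D ≠ 0 := by
    by_contra hall
    push Not at hall
    exact hα.ne (LinearMap.ext hall)
  have hb0 : b ≠ 0 := by
    rintro rfl
    exact hD (by rw [hb, zero_mul])
  have hDh : D h ≠ 0 := fun h0 => hD (by rw [hb, h0, mul_zero])
  have hξb : ξ b = (k : ℂ) • b := by
    have e := Al.xi_wt hT hα D
    rw [hb, hb, Derivation.commutator_apply, hξh, map_zero, sub_zero, Derivation.leibniz,
      smul_eq_mul, smul_eq_mul] at e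
    have e2 : ξ b * D h = ((k : ℂ) • b) * D h := by
      rw [smul_mul_assoc, ← e]
      ring
    exact mul_right_cancel₀ hDh e2
  apply hcon
  rcases hX with hX | hX
  · obtain ⟨l, f, g, m, hl, hf, hg, hf0, hg0, hfm, hgm, hfg, hm, hcop⟩ :=
      hQ K R ξ J a r H c hC hX hT h hh hcst
    have hh0 : h ≠ 0 := by
      rintro rfl
      exact hcst ⟨0, by rw [map_zero]⟩
    have hlK : (l : K) ≠ 0 := by
      have : CharZero K := charZero_of_injective_algebraMap (algebraMap ℂ K).injective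
      exact_mod_cast hl.ne'
    have hcfg : ¬ Cst (f / g) := by
      rintro ⟨t, ht⟩
      rw [← hfg] at ht
      refine hcst (Pool.Agent.Helper12.D4.cst_of_algebraic
        ⟨Polynomial.X ^ l - Polynomial.C t, Polynomial.X_pow_sub_C_ne_zero hl t, ?_⟩)
      rw [map_sub, map_pow, Polynomial.aeval_X, Polynomial.aeval_C, ht, sub_self]
    refine hP K R ξ J v a V hC hM.toMin f g (b / (l * h ^ (l - 1))) _ k α hf hg hf0 hg0 hm
      (hT.xi_w hfm) (hT.xi_w hgm) hcop hcfg (div_ne_zero hb0 (mul_ne_zero hlK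
        (pow_ne_zero _ hh0))) ?_ ?_ hα.reg
    · rw [der_div ξ _ _ (mul_ne_zero hlK (pow_ne_zero _ hh0))]
      have e1 : ξ ((l : K) * h ^ (l - 1)) = 0 := by
        rw [Derivation.leibniz, Derivation.leibniz_pow, hξh, smul_zero, smul_zero, smul_zero,
          Derivation.map_natCast, smul_zero, add_zero]
      rw [e1, mul_zero, sub_zero, hξb, mul_div_mul_left _ _ (mul_ne_zero hlK
        (pow_ne_zero _ hh0)), smul_div_assoc]
    · intro D'
      rw [← hfg, Derivation.leibniz_pow, hb, smul_eq_mul, nsmul_eq_mul]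
      field_simp
  · exact hPn K R ξ J v a V hC hM h b k α hξh hcst (hX h hξh hcst) hb0 hξb hb hα.reg

theorem cm_c (hA : S_A) (hAc : S_Ac) (hB : S_B1n) (hQ : S_Q) (hP : S_P) (hPn : S_Pn)
    (hCF : S_CF) : S_CMc := by
  intro K _ _ R ξ J v a V r H c hC hM hX hT hr χ α hα hχ
  by_cases hj : ∃ j, α (H j) ≠ 0
  · rcases hX with hX | hX
    · exact hA K R ξ J v a V r H c hC hM.toMin hX hT χ α hα hχ hj
    · exact hAc K R ξ J v a V r H c hC hM.toMin hX hT χ α hα hχ hj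
  · push Not at hj
    exact cm_b hB hQ hP hPn K R ξ J v a V r H c hC hM
      (hX.imp id fun h => hCF K R ξ hC.toIsCone hC.normal h) hT hr χ α hα hχ hj

theorem fm_c (hT1 : S_T1) (hT2 : S_T2) (hCM : S_CMc) : S_FMc := by
  intro K _ _ R ξ J v a V r H c hC hM hX hT hr ω k hreg hcl hhom hω hk
  by_contra hcon
  have hlt := lt_of_not_ge hcon
  obtain ⟨ω', χ, hreg', hcl', hω', hhom', hχ⟩ :=
    hT1 K R ξ J a r H c hC hT ω k hreg hcl hhom hω
  rw [← hχ] at hk hlt hcon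
  obtain ⟨α, hα⟩ := hT2 K R ξ J a r H c hC hT ω' χ hreg' hcl' hω' hhom' hk hlt
  exact hcon (hCM K R ξ J v a V r H c hC hM hX hT hr χ α hα hk)

variable {K : Type} [Field K] [Algebra ℂ K] {K₀ : Type} [Field K₀] [Algebra ℂ K₀]
  {R : Subalgebra ℂ K} {v : RVal K} {R₀ : Subalgebra ℂ K₀} {ξ : Derivation ℂ K₀ K₀}
  {sym : ℝ → K → K₀}

/-- The main theorem: dimension 4. -/
theorem degen_four_c (hFM : S_FMc) (hR1 : S_R1) (hR2 : S_R2) (hPF : S_PF) (hND : S_ND)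
    (hR : IsFrac R) (hgr : IsGr R v R₀ ξ sym) (hq : QuasiMonomial 4 v sym)
    {v₀ : RVal K₀} {J : Bra K₀} {a V : ℝ} (hcone : Cone4 R₀ ξ J a)
    (hmin : IsMinF R₀ ξ J v₀ a V) (hX₀ : QFac R₀ ∨ CoxFG R₀)
    {ω : Form K} (hcl : Closed ω)
    (hJ : ∀ (D : Fin 4 → Derivation ℂ K K) (D₀ : Fin 4 → Derivation ℂ K₀ K₀),
      (∀ i, Induces v sym (D i) (D₀ i)) → v.Ge a (pf ω D) ∧
        ∀ f, brk J f * sym a (pf ω D) = dt D₀ f)
    {ω₀ : Form K₀} {k : ℝ} (hdeg : IsDegen v sym ω k ω₀) (hreg : IsReg R₀ ω₀) (hk : k ≠ 0)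
    {E : Derivation ℂ K₀ K₀} (hE : Pres R₀ E) (hEξ : ⁅ξ, E⁆ = 0) (hEω : HomForm E 1 ω₀)
    (hEJ : HomBra E 2 J) :
    k = a / 2 ∧ IsNondeg R₀ ω₀ ∧ Closed ω₀ ∧ HomForm ξ k ω₀ := by
  obtain ⟨g, D, D₀, hD, hD₀, hind⟩ := hq
  obtain ⟨hcl₀, hhom⟩ := degen_closed_hom hR hgr hD hD₀ hind hcl hdeg hreg
  obtain ⟨hpa, hJf⟩ := hJ D D₀ hind
  obtain ⟨hp2, hpf⟩ := sym_pf hgr hdeg hind
  -- the symbol of the Pfaffian is not zero
  set z : Fin 4 → K₀ := fun i => sym (v.val (g i)) (g i) with hz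
  have hdt : dt D₀ z ≠ 0 := by
    have e : (Matrix.of fun i j => D₀ i (z j)) = Matrix.diagonal z := by
      ext i j
      rw [Matrix.of_apply, hD₀.apply i j, Matrix.diagonal_apply]
      split_ifs with hij
      · rw [hij]
      · rfl
    rw [dt, e, Matrix.det_diagonal]
    exact Finset.prod_ne_zero_iff.mpr fun i _ => hD₀.ne i
  have hs : sym a (pf ω D) ≠ 0 := by
    intro h0
    apply hdt
    rw [← hJf z, h0, mul_zero]
  have hval : pf ω D ≠ 0 ∧ v.val (pf ω D) = a := by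
    have h1 : ¬ (pf ω D = 0 ∨ a < v.val (pf ω D)) := fun h => hs ((hgr.zero_iff _ _ hpa).mpr h)
    rw [not_or] at h1
    exact ⟨h1.1, le_antisymm (not_lt.mp h1.2) (hpa.resolve_left h1.1)⟩
  have hle : k + k ≤ a := by
    have := hp2.resolve_left hval.1
    rwa [hval.2] at this
  have hge : a ≤ 2 * k := by
    rcases hR1 K₀ R₀ ξ hcone.toIsCone E hE hEξ with ⟨r, H, c, hr, hT⟩ | ⟨μ, hμ⟩
    · exact hFM K₀ R₀ ξ J v₀ a V r H c hcone hmin hX₀ hT hr ω₀ k hreg hcl₀ hhom hdeg.ne hk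
    · exact (hR2 K₀ R₀ ξ J a hcone E μ hE hμ hEJ ω₀ k hreg hhom hEω hdeg.ne).ge
  have hka : k = a / 2 := by linarith
  have hkk : k + k = a := by linarith
  rw [hkk] at hpf
  refine ⟨hka, ?_, hcl₀, hhom⟩
  obtain ⟨c, _, hc, _⟩ := hPF K₀ R₀ ξ J a hcone ω₀ hreg
  have hc1 : c = 1 := by
    have h1 := hc D₀ z
    rw [hpf, hJf z] at h1
    exact mul_right_cancel₀ hdt (h1.trans (one_mul _).symm)
  refine hND K₀ R₀ ξ J a hcone ω₀ hreg 1 one_ne_zero fun D' f => ?_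
  rw [map_one, ← hc1]
  exact hc D' f

end Pool.Agent.Helper88.D4
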