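import Pool.Agent.Helper88.D4.CMc
import Pool.Agent.Helper46.D4.PnEnd
import Pool.Agent.Helper20.D4.ResEnd
import Pool.Agent.Helper94.D4.CaseA
import Pool.Agent.Helper11.D4.B1n
import Pool.Agent.Helper11.D4.B1b
import Pool.Agent.Helper11.D4.W2p
import Pool.Agent.Helper11.D4.EX1
import Pool.Agent.Helper11.D4.EX2M
import Pool.Agent.Helper80.D4.B1a
import Pool.Agent.Helper37.D4.T0
import Pool.Agent.Helper37.D4.HT
import Pool.Agent.Helper48.D4.B0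
import Pool.Agent.Helper48.D4.Cnt
import Pool.Agent.Helper87.D4.Zf
import Pool.Agent.Helper14.D4.T1
import Pool.Agent.Helper8.D4.T2
import Pool.Agent.Helper79.D4.R1
import Pool.Agent.Helper73.D4.R2
import Pool.Agent.Helper51.D4.Quo
import Pool.Agent.Helper74.D4.P
import Pool.Agent.Helper75.D4.LDpd
import Pool.Agent.Helper76.D4.Fin
import Pool.Agent.Helper76.D4.Cf
import Pool.Agent.Helper84.D4.Pf

/-!
# Project D4 (MP_e1889a_ag): closure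
-/

set_option autoImplicit false

namespace Pool.Agent.Helper88.D4

open Module Filter Topology Pool.Agent.Helper37.SD Pool.Agent.Helper20.TS

theorem t_PF : S_PF :=
  Pool.Agent.Helper84.D4.s_PF Pool.Agent.Helper76.D4.s_UN Pool.Agent.Helper11.D4.s_EX1

theorem t_ND : S_ND :=
  Pool.Agent.Helper84.D4.s_ND Pool.Agent.Helper76.D4.s_UN Pool.Agent.Helper11.D4.s_EX1

theorem t_A : S_A :=
  Pool.Agent.Helper94.D4.s_A Pool.Agent.Helper37.D4.s_T0 Pool.Agent.Helper75.D4.s_LDpd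
    Pool.Agent.Helper76.D4.s_UN Pool.Agent.Helper76.D4.s_CL Pool.Agent.Helper46.D4.s_REG0

theorem t_Ac : S_Ac :=
  Pool.Agent.Helper94.D4.s_Ac Pool.Agent.Helper37.D4.s_T0 Pool.Agent.Helper75.D4.s_LDpd
    Pool.Agent.Helper76.D4.s_UN Pool.Agent.Helper76.D4.s_CL Pool.Agent.Helper46.D4.s_REG0
    Pool.Agent.Helper20.D4.s_RES

theorem t_B1n : S_B1n :=
  Pool.Agent.Helper11.D4.s_B1n
    (Pool.Agent.Helper80.D4.s_B1a Pool.Agent.Helper48.D4.s_B0 Pool.Agent.Helper48.D4.s_CNT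
      Pool.Agent.Helper12.D4.s_AI)
    (Pool.Agent.Helper11.D4.s_B1b (Pool.Agent.Helper11.D4.w2n_of Pool.Agent.Helper37.D4.s_HT)
      (Pool.Agent.Helper87.D4.s_Z Pool.Agent.Helper12.D4.s_JD Pool.Agent.Helper12.D4.s_AI)
      Pool.Agent.Helper12.D4.s_AI)

theorem t_CMc : S_CMc :=
  cm_c t_A t_Ac t_B1n (Pool.Agent.Helper51.D4.s_Q Pool.Agent.Helper11.D4.s_EX1
      Pool.Agent.Helper37.D4.s_HF)
    (Pool.Agent.Helper74.D4.s_P Pool.Agent.Helper11.D4.s_EX1 Pool.Agent.Helper11.D4.s_EX2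
      Pool.Agent.Helper46.D4.s_LDfr0 Pool.Agent.Helper37.D4.s_T0 Pool.Agent.Helper37.D4.s_V3
      Pool.Agent.Helper76.D4.s_UN Pool.Agent.Helper76.D4.s_CL Pool.Agent.Helper46.D4.s_REG0)
    Pool.Agent.Helper46.D4.s_Pn0 Pool.Agent.Helper76.D4.s_CF

/-- 2-forms on cones of dimension 4 -/
theorem t_FMc : S_FMc :=
  fm_c Pool.Agent.Helper14.D4.s_T1 (Pool.Agent.Helper8.D4.s_T2 t_PF) t_CMc

variable {K : Type} [Field K] [Algebra ℂ K] {K₀ : Type} [Field K₀] [Algebra ℂ K₀]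
  {R : Subalgebra ℂ K} {v : RVal K} {R₀ : Subalgebra ℂ K₀} {ξ : Derivation ℂ K₀ K₀}
  {sym : ℝ → K → K₀}

/-- The main theorem: dimension 4. -/
theorem dimension_four
    (hR : IsFrac R) (hgr : IsGr R v R₀ ξ sym) (hq : QuasiMonomial 4 v sym)
    {v₀ : RVal K₀} {J : Bra K₀} {a V : ℝ} (hcone : Cone4 R₀ ξ J a)
    (hmin : IsMinF R₀ ξ J v₀ a V) (hX₀ : QFac R₀ ∨ CoxFG R₀)
    {ω : Form K} (hcl : Closed ω)
    (hJ : ∀ (D : Fin 4 → Derivation ℂ K K) (D₀ : Fin 4 → Derivation ℂ K₀ K₀),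
      (∀ i, Induces v sym (D i) (D₀ i)) → v.Ge a (pf ω D) ∧
        ∀ f, brk J f * sym a (pf ω D) = dt D₀ f)
    {ω₀ : Form K₀} {k : ℝ} (hdeg : IsDegen v sym ω k ω₀) (hreg : IsReg R₀ ω₀) (hk : k ≠ 0)
    {E : Derivation ℂ K₀ K₀} (hE : Pres R₀ E) (hEξ : ⁅ξ, E⁆ = 0) (hEω : HomForm E 1 ω₀)
    (hEJ : HomBra E 2 J) :
    k = a / 2 ∧ IsNondeg R₀ ω₀ ∧ Closed ω₀ ∧ HomForm ξ k ω₀ :=
  degen_four_c t_FMc Pool.Agent.Helper79.D4.s_R1
    (Pool.Agent.Helper73.D4.s_R2 Pool.Agent.Helper12.D4.s_AI) t_PF t_ND hR hgr hq hcone hmin hX₀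
    hcl hJ hdeg hreg hk hE hEξ hEω hEJ

end Pool.Agent.Helper88.D4
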