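import Pool.Agent.Helper88.D4.GmClo5
import Pool.Agent.Helper88.D4.Stmts6
import Pool.Agent.Helper80.D4.B1a

/-!
# Project D4 (MP_e1889a_ag): closed 2-forms on a Q-factorial cone (assembly of stage 6)
-/

set_option autoImplicit false

namespace Pool.Agent.Helper88.D4

open Module Filter Topology Pool.Agent.Helper37.SD Pool.Agent.Helper20.TS

variable {K : Type} [Field K] [Algebra ℂ K]

/-- a torus of rank 1 -/
theorem tor_one {R : Subalgebra ℂ K} {ξ : Derivation ℂ K K} {J : Bra K} {a : ℝ}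
    (hC : Cone4 R ξ J a) {H : Fin 1 → Derivation ℂ K K} {c : Fin 1 → ℝ} (hT : Tor R ξ H c) :
    (c 0 : ℂ) ≠ 0 ∧ ξ = (c 0 : ℂ) • H 0 := by
  have h1 : ξ = (c 0 : ℂ) • H 0 := by
    conv_lhs => rw [hT.xi]
    simp
  refine ⟨?_, h1⟩
  intro h0
  rw [h0, zero_smul] at h1
  exact xi_ne hC h1

/-- the Pfaffian of a form of small weight is zero -/
theorem pf_zero (hPF : S_PF) {R : Subalgebra ℂ K} {ξ : Derivation ℂ K K} {J : Bra K} {a : ℝ}
    (hC : Cone4 R ξ J a) {ω : Form K} {k : ℝ} (hreg : IsReg R ω) (hhom : HomForm ξ k ω)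
    (hk : 2 * k < a) : ∀ D, pf ω D = 0 := by
  obtain ⟨p, hpR, hp, hpw⟩ := hPF K R ξ J a hC ω hreg
  have hw := hpw k hhom
  have hp0 : p = 0 := by
    by_contra hne
    have := hC.toIsCone.eig_nonneg hpR hne hw
    linarith
  obtain ⟨x, y, z, w, hne⟩ := hC.alt.ne
  intro D
  have h1 := hp D ![x, y, z, w]
  rw [hp0, zero_mul] at h1
  have h2 : brk J ![x, y, z, w] ≠ 0 := hne
  exact (mul_eq_zero.mp h1.symm).resolve_left h2

/-- If the Reeb field is in the kernel then the weight is `0`. -/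
theorem weight_of_ker {ξ : Derivation ℂ K K} {ω : Form K} {k : ℝ} (halt : ∀ D, ω D D = 0)
    (hcl : Closed ω) (hhom : HomForm ξ k ω) (hω : ω ≠ 0) (hξ : ∀ B, ω ξ B = 0) : k = 0 := by
  by_contra hk
  apply hω
  refine LinearMap.ext fun A => LinearMap.ext fun B => ?_
  have h1 := hcl ξ A B
  have h2 := hhom A B
  rw [hξ, hξ, map_zero, map_zero] at h1
  have h3 : ω ⁅A, B⁆ ξ = 0 := by
    rw [alt_neg halt, hξ, neg_zero]
  have h4 : ω ⁅ξ, B⁆ A = -ω A ⁅ξ, B⁆ := alt_neg halt _ _
  rw [h3, h4] at h1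
  have h5 : (k : ℂ) • ω A B = 0 := by
    rw [← h2]
    linear_combination h1
  have hk' : (k : ℂ) ≠ 0 := by exact_mod_cast hk
  exact (smul_eq_zero.mp h5).resolve_left hk'

/-- A 1-form which is zero on the kernel of `dh` is a multiple of `dh`. -/
theorem exists_mul {J : Bra K} (ht : Algebra.trdeg ℂ K = 4) (hJ : IsAlt J)
    {E : Fin 3 → Derivation ℂ K K} (hE : LinearIndependent K E) {h : K} (hcst : ¬ Cst h)
    (hEh : ∀ i, E i h = 0) {α : One K} (hα : ∀ i, α (E i) = 0) :
    ∃ b : K, ∀ D, α D = b * D h := by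
  obtain ⟨hfin, hrk⟩ := Pool.Agent.Helper80.D4.finrank_der Pool.Agent.Helper12.D4.s_AI ht hJ
  obtain ⟨x, y, z, hD₀⟩ := (Pool.Agent.Helper12.D4.s_AI K J ht hJ).2.2 h hcst
  set D₀ := J x y z with hD₀'
  have hne : evd h ≠ 0 := fun h0 => hD₀ (by
    have := LinearMap.congr_fun h0 D₀
    simpa [evd] using this)
  have h3 : finrank K (LinearMap.ker (evd h)) = 3 := by
    have := Module.Dual.finrank_ker_add_one_of_ne_zero hne
    omega
  have hle : Submodule.span K (Set.range E) ≤ LinearMap.ker (evd h) := by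
    rw [Submodule.span_le]
    rintro _ ⟨i, rfl⟩
    exact hEh i
  have hs : finrank K (Submodule.span K (Set.range E)) = 3 := by
    rw [finrank_span_eq_card hE, Fintype.card_fin]
  have heq : Submodule.span K (Set.range E) = LinearMap.ker (evd h) :=
    Submodule.eq_of_le_of_finrank_eq hle (hs.trans h3.symm)
  have hker : LinearMap.ker (evd h) ≤ LinearMap.ker α := by
    rw [← heq, Submodule.span_le]
    rintro _ ⟨i, rfl⟩
    exact hα i
  refine ⟨α D₀ / D₀ h, fun D => ?_⟩
  have h4 : D - (D h / D₀ h) • D₀ ∈ LinearMap.ker (evd h) := by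
    change (D - (D h / D₀ h) • D₀ : Derivation ℂ K K) h = 0
    rw [Derivation.sub_apply, Derivation.smul_apply, smul_eq_mul, div_mul_cancel₀ _ hD₀, sub_self]
  have h5 : α (D - (D h / D₀ h) • D₀) = 0 := hker h4
  rw [map_sub, map_smul, smul_eq_mul, sub_eq_zero] at h5
  rw [h5]
  ring

/-- closed 2-forms on a Q-factorial cone -/
theorem s_FMQ (hKER : S_KER) (hXI : S_XI0) (hL1 : S_L1) (hJET : S_JET) : S_FMQ := by
  intro K _ _ R ξ J v a V hC hM hX ω k hreg hcl hhom hω
  by_contra hlt
  have hk : 2 * k < a := lt_of_not_ge hlt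
  have ha := hM.apos
  have hpf := pf_zero t_PF hC hreg hhom hk
  obtain ⟨r, H, c, e, hT, -, -, -⟩ := Pool.Agent.Helper79.D4.s_R1s K R ξ hC.toIsCone 0
    (fun x _ => by rw [Derivation.zero_apply]; exact R.zero_mem) (by simp)
  have hr : r = 0 ∨ r = 1 ∨ 2 ≤ r := by omega
  rcases hr with rfl | rfl | hr
  · exact xi_ne hC (by rw [hT.xi]; simp)
  · obtain ⟨hc0, hξ⟩ := tor_one hC hT
    obtain ⟨D, P, hF, hker⟩ := hKER K R ξ J a hC ω k hreg hcl hhom hω hpf
    by_cases hin : ∀ B, ω ξ B = 0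
    · have hk0 : k = 0 := weight_of_ker hreg.alt hcl hhom hω hin
      subst hk0
      rw [sub_zero] at hF
      exact hXI K R ξ J v a V H c hC hM hX hT D P hF ((hker ξ).mp hin)
    · obtain ⟨h, hh, h0, h1, hcst⟩ : ∃ h, ξ h = 0 ∧ D 0 h = 0 ∧ D 1 h = 0 ∧ ¬ Cst h := by
        by_contra hno
        push Not at hno
        have hδ : 0 < min ((a - k) / 2) ((a - k) - a / 2) := lt_min (by linarith) (by linarith)
        obtain ⟨f, q, M, hq, hdeg, hf0, hfw, hfr, hMq⟩ := hJET K R ξ J v a V H c hC hM hT D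
          hF.com hF.inv (fun h h1 h2 h3 => hno h h1 h2 h3) _ hδ
        have h2 := hL1 K R ξ J v a V H c hC hM hX hT (a - k) D P hF f q M hdeg hf0 hfw hfr
        linarith
      obtain ⟨ω', χ, -, -, -, -, hχ⟩ :=
        Pool.Agent.Helper14.D4.s_T1 K R ξ J a 1 H c hC hT ω k hreg hcl hhom hω
      have hχ0 : c 0 * χ 0 = k := by simpa using hχ
      have hD0 : ∀ B, ω (D 0) B = 0 := (hker _).mpr ⟨1, 0, by rw [one_smul, zero_smul, add_zero]⟩
      have hD1 : ∀ B, ω (D 1) B = 0 := (hker _).mpr ⟨0, 1, by rw [one_smul, zero_smul, zero_add]⟩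
      obtain ⟨b, hb⟩ : ∃ b : K, ∀ E, ω ξ E = b * E h := by
        refine exists_mul hC.trdeg hC.alt (E := ![D 0, D 1, ξ]) ?_ hcst ?_ ?_
        · rw [Fintype.linearIndependent_iff]
          intro g hg
          rw [Fin.sum_univ_three] at hg
          change g 0 • D 0 + g 1 • D 1 + g 2 • ξ = 0 at hg
          have hg2 : g 2 = 0 := by
            by_contra hne
            apply hin
            refine (hker ξ).mpr ⟨-(g 2)⁻¹ * g 0, -(g 2)⁻¹ * g 1, ?_⟩
            have e1 : ξ = (g 2)⁻¹ • (g 2 • ξ) := by rw [smul_smul, inv_mul_cancel₀ hne, one_smul]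
            have e2 : g 2 • ξ = -(g 0 • D 0 + g 1 • D 1) := by
              rw [eq_neg_iff_add_eq_zero, add_comm]
              exact hg
            conv_lhs => rw [e1, e2]
            rw [smul_neg, smul_add, smul_smul, smul_smul, neg_mul, neg_mul, neg_smul, neg_smul,
              neg_add]
          rw [hg2, zero_smul, add_zero] at hg
          obtain ⟨hg0, hg1⟩ := hF.ind _ _ hg
          intro i
          fin_cases i
          · exact hg0
          · exact hg1
          · exact hg2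
        · intro i
          fin_cases i
          · exact h0
          · exact h1
          · exact hh
        · intro i
          fin_cases i
          · change ω ξ (D 0) = 0
            rw [alt_neg hreg.alt, hD0, neg_zero]
          · change ω ξ (D 1) = 0
            rw [alt_neg hreg.alt, hD1, neg_zero]
          · exact hreg.alt ξ
      have hHh : ∀ i, H i h = 0 := by
        intro i
        have e1 : ξ h = (c 0 : ℂ) • H 0 h := by
          conv_lhs => rw [hξ]
          rfl
        rw [hh] at e1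
        have e2 : H 0 h = 0 := (smul_eq_zero.mp e1.symm).resolve_left hc0
        rw [Subsingleton.elim i 0]
        exact e2
      have hb0 : b ≠ 0 := by
        rintro rfl
        exact hin fun B => by rw [hb, zero_mul]
      have hwt : ∀ E, ξ (ω ξ E) - ω ξ ⁅ξ, E⁆ = (k : ℂ) • ω ξ E := by
        intro E
        have e1 := hhom ξ E
        have e2 : ω ⁅ξ, ξ⁆ E = 0 := by rw [lie_self, map_zero, LinearMap.zero_apply]
        rwa [e2, sub_zero] at e1
      have hα : Al R ξ H χ (ω ξ) := by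
        refine ⟨?_, ?_, ?_, hreg.alt ξ, ?_⟩
        · intro h0
          exact hin fun B => by rw [h0, LinearMap.zero_apply]
        · intro E hE
          exact hreg.reg _ _ hC.toIsCone.pres hE
        · intro i E
          have e1 := hwt E
          rw [Subsingleton.elim i 0]
          have e2 : ξ (ω ξ E) = (c 0 : ℂ) • H 0 (ω ξ E) := by
            rw [hT.xi_apply]
            simp
          have e3 : ⁅ξ, E⁆ = (c 0 : ℂ) • ⁅H 0, E⁆ := by
            ext y
            rw [Derivation.commutator_apply, hT.xi_apply, hT.xi_apply]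
            simp only [Finset.univ_unique, Fin.default_eq_zero, Fin.isValue, Finset.sum_singleton,
              Derivation.map_smul, Derivation.smul_apply, Derivation.commutator_apply, smul_sub]
          have e4 : ω ξ ((c 0 : ℂ) • ⁅H 0, E⁆) = (c 0 : ℂ) • ω ξ ⁅H 0, E⁆ := by
            rw [← algebraMap_smul K (c 0 : ℂ) ⁅H 0, E⁆, map_smul, algebraMap_smul]
          rw [e2, e3, e4, ← smul_sub, ← hχ0] at e1
          push_cast at e1
          rw [mul_smul] at e1
          exact smul_right_injective K hc0 e1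
        · intro A B C
          simp only [dOne, hb]
          simp only [Derivation.leibniz, smul_eq_mul, Derivation.commutator_apply]
          ring
      have h2 := tail (Pool.Agent.Helper51.D4.s_Q Pool.Agent.Helper11.D4.s_EX1
        Pool.Agent.Helper37.D4.s_HF)
        (Pool.Agent.Helper74.D4.s_P Pool.Agent.Helper11.D4.s_EX1 Pool.Agent.Helper11.D4.s_EX2
          Pool.Agent.Helper46.D4.s_LDfr0 Pool.Agent.Helper37.D4.s_T0 Pool.Agent.Helper37.D4.s_V3
          Pool.Agent.Helper76.D4.s_UN Pool.Agent.Helper76.D4.s_CL Pool.Agent.Helper46.D4.s_REG0)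
        Pool.Agent.Helper46.D4.s_Pn0 hC hM (Or.inl hX) hT hα hHh hcst hb
      rw [hχ] at h2
      linarith
  · exact hlt (fm_lio5 t_FMc Pool.Agent.Helper79.D4.s_R1s
      (Pool.Agent.Helper73.D4.s_R2 Pool.Agent.Helper12.D4.s_AI) Pool.Agent.Helper14.D4.s_T1s
      (Pool.Agent.Helper1.D4.s_T2s t_PF) Pool.Agent.Helper80.D4.s_B1s
      (Pool.Agent.Helper51.D4.s_Q Pool.Agent.Helper11.D4.s_EX1 Pool.Agent.Helper37.D4.s_HF)
      (Pool.Agent.Helper74.D4.s_P Pool.Agent.Helper11.D4.s_EX1 Pool.Agent.Helper11.D4.s_EX2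
        Pool.Agent.Helper46.D4.s_LDfr0 Pool.Agent.Helper37.D4.s_T0 Pool.Agent.Helper37.D4.s_V3
        Pool.Agent.Helper76.D4.s_UN Pool.Agent.Helper76.D4.s_CL Pool.Agent.Helper46.D4.s_REG0)
      Pool.Agent.Helper46.D4.s_Pn0 Pool.Agent.Helper76.D4.s_CF Pool.Agent.Helper14.D4.s_T1 t_B1z
      t_K2 t_T2z hC hM (Or.inl hX) hreg hcl hhom hω (Or.inr ⟨r, H, c, hr, hT⟩))

end Pool.Agent.Helper88.D4
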