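import Pool.Agent.Helper88.D4.Gm
import Pool.Agent.Helper88.D4.Stmts5

/-!
# Project D4 (MP_e1889a_ag): assembly of the form for germs, without a bound for the order of the
bracket if the torus has rank at least 2
-/

set_option autoImplicit false

namespace Pool.Agent.Helper88.D4

open Module Filter Topology IsLocalRing Pool.Agent.Helper37.SD Pool.Agent.Helper20.TS
  Pool.Agent.Helper11.SY Pool.Agent.Helper20.LT

section Cone

variable {K : Type} [Field K] [Algebra ℂ K]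

/-- forms of degree `0`, torus of rank at least 2 -/
theorem fm_torus0 (hT1 : S_T1) (hT2 : S_T2s) (hB : S_B1s) (hBz : S_B1z) (hK2 : S_K2)
    (hT2z : S_T2z) (hQ : S_Q) (hP : S_P) (hPn : S_Pn)
    {R : Subalgebra ℂ K} {ξ : Derivation ℂ K K}
    {J : Bra K} {v : RVal K} {a V : ℝ} {r : ℕ} {H : Fin r → Derivation ℂ K K} {c : Fin r → ℝ}
    (hC : Cone4 R ξ J a) (hM : IsMinF R ξ J v a V) (hX : QFac R ∨ FGen R ξ) (hT : Tor R ξ H c)
    (hr : 2 ≤ r) {ω : Form K} (hreg : IsReg R ω) (hcl : Closed ω) (hhom : HomForm ξ 0 ω)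
    (hω : ω ≠ 0) : False := by
  obtain ⟨ω', χ, hreg', hcl', hω', hhom', hχ⟩ := hT1 K R ξ J a r H c hC hT ω 0 hreg hcl hhom hω
  by_cases hχ0 : χ = 0
  · subst hχ0
    have hh0 : ∀ i, HomForm (H i) 0 ω' := fun i => by
      have h := hhom' i
      simpa using h
    rcases hT2z K R ξ J a r H c hC hT ω' hreg' hcl' hh0 with h | ⟨α, hα, hαH⟩
    · exact hω' (hK2 K R ξ J v a V r H c hC hM hT hr ω' hreg' hh0 h)
    · obtain ⟨h, hh, hcst, b, hb⟩ := hBz K R ξ J v a V r H c hC hM hT hr α hα hαH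
      have h1 := tail hQ hP hPn hC hM hX hT hα hh hcst hb
      rw [hχ, mul_zero] at h1
      exact absurd hM.apos (not_lt.mpr h1)
  · obtain ⟨α, hα, hαH⟩ := hT2 K R ξ J a r H c hC hT ω' χ hreg' hcl' hω' hhom' hχ0 hχ hM.apos
    obtain ⟨h, hh, hcst, b, hb⟩ := hB K R ξ J v a V r H c hC hM hT hr χ α hα hχ0 hχ hαH
    have h1 := tail hQ hP hPn hC hM hX hT hα hh hcst hb
    rw [hχ, mul_zero] at h1
    exact absurd hM.apos (not_lt.mpr h1)

/-- 2-forms and Liouville fields, or a torus of rank at least 2 -/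
theorem fm_lio5 (hFM : S_FMc) (hR1 : S_R1s) (hR2 : S_R2) (hT1s : S_T1s) (hT2 : S_T2s)
    (hB : S_B1s) (hQ : S_Q) (hP : S_P) (hPn : S_Pn) (hCF : S_CF) (hT1 : S_T1) (hBz : S_B1z)
    (hK2 : S_K2) (hT2z : S_T2z)
    {R : Subalgebra ℂ K} {ξ : Derivation ℂ K K}
    {J : Bra K} {v : RVal K} {a V : ℝ} (hC : Cone4 R ξ J a) (hM : IsMinF R ξ J v a V)
    (hX : QFac R ∨ CoxFG R) {ω : Form K} {k : ℝ} (hreg : IsReg R ω) (hcl : Closed ω)
    (hhom : HomForm ξ k ω) (hω : ω ≠ 0)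
    (hT : (∃ E : Derivation ℂ K K, Pres R E ∧ ⁅ξ, E⁆ = 0 ∧ HomForm E 1 ω ∧ HomBra E 2 J) ∨
      ∃ (r : ℕ) (H : Fin r → Derivation ℂ K K) (c : Fin r → ℝ), 2 ≤ r ∧
        Tor R ξ H c) : a ≤ 2 * k := by
  rcases hT with hE | ⟨r, H, c, hr, hT⟩
  · exact fm_lio hFM hR1 hR2 hT1s hT2 hB hQ hP hPn hCF hC hM hX hreg hcl hhom hω (Or.inl hE)
  · by_cases hk : k = 0
    · subst hk
      exact (fm_torus0 hT1 hT2 hB hBz hK2 hT2z hQ hP hPn hC hM
        (hX.imp id fun h => hCF K R ξ hC.toIsCone hC.normal h) hT hr hreg hcl hhom hω).elim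
    · exact hFM K R ξ J v a V r H c hC hM hX hT hr ω k hreg hcl hhom hω hk

end Cone

/-- The main theorem for germs of dimension 4. -/
theorem germ_four5 (hFM : S_FMc) (hR1 : S_R1s) (hR2 : S_R2) (hT1s : S_T1s) (hT2 : S_T2s)
    (hB : S_B1s) (hQ : S_Q) (hP : S_P) (hPn : S_Pn) (hCF : S_CF) (hORD : S_ORD) (hPOI : S_POI)
    (hOM : S_OM) (hT1 : S_T1) (hBz : S_B1z) (hK2 : S_K2) (hT2z : S_T2z)
    (R : Type) [CommRing R] [Algebra ℂ R] [IsDomain R] [IsLocalRing R]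
    [IsNoetherianRing R] [IsAdicComplete (maximalIdeal R) R]
    (hres : ∀ f : R, ∃ c : ℂ, f - algebraMap ℂ R c ∈ maximalIdeal R)
    (hdim : ringKrullDim R = 4)
    (S : Symp R 2) (w : CVal R) (A : ℝ) (hw : IsMinimizer S w A)
    (K : Type) [Field K] [Algebra ℂ K] (R₀ : Subalgebra ℂ K) (ξ : Derivation ℂ K K)
    (sym : ℝ → R → K) (hgr : GrL w R₀ ξ sym) (J : Bra K) (hJ : LeadTh S w A sym J)
    (hcone : Cone4 R₀ ξ J A) (v₀ : RVal K) (V : ℝ) (hmin : IsMinF R₀ ξ J v₀ A V)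
    (hX₀ : QFac R₀ ∨ CoxFG R₀)
    (hT : (∃ E : Derivation ℂ R R, (∀ f ∈ maximalIdeal R, E f ∈ maximalIdeal R) ∧
        Liouville S E) ∨
      ∃ (r : ℕ) (H : Fin r → Derivation ℂ K K) (c : Fin r → ℝ),
        2 ≤ r ∧ Tor R₀ ξ H c) : OrderGe S w (A / 2) := by
  have hm : ∃ f ∈ maximalIdeal R, f ≠ 0 := exists_nonzero (n := 2) (by norm_num) (by
    rw [hdim]
    rfl)
  obtain ⟨s, hs, f, g, hfg, hfgs⟩ :=
    hORD R hres S w A hw.disc hm K R₀ ξ sym hgr hcone.toIsCone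
  obtain ⟨h, hh, hlio⟩ := hPOI R hres S w A hw.disc K R₀ ξ sym hgr J hJ hcone s hs
    ⟨f, g, hfg, hfgs⟩
  obtain ⟨ω, hreg, hcl, hhom, hω, hEω⟩ := hOM K R₀ ξ J A s h hcone hh
  have key : A ≤ 2 * (A - s) := by
    refine fm_lio5 hFM hR1 hR2 hT1s hT2 hB hQ hP hPn hCF hT1 hBz hK2 hT2z hcone hmin hX₀ hreg
      hcl hhom hω ?_
    rcases hT with ⟨E, hEm, hL⟩ | hr
    · left
      have hEv : ∀ f, w.v f ≤ w.v (E f) := fun f =>
        der_val hres w (fun σ f => inv_aut hw hm σ f) E hEm f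
      obtain ⟨E₀, h1, h2, h3, h4⟩ := hlio E hL hEv
      exact ⟨E₀, h1, h2, hEω E₀ h1 h2 h3 h4, h3⟩
    · exact Or.inr hr
  intro f g
  refine (hs f g).trans (add_le_add le_rfl ?_)
  rw [WithTop.coe_le_coe]
  linarith

end Pool.Agent.Helper88.D4
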