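import Pool.Agent.Helper88.D4.FmQ

/-!
# Project D4 (MP_e1889a_ag): assembly of the form for germs, no further hypothesis if `X₀` is
Q-factorial
-/

set_option autoImplicit false

namespace Pool.Agent.Helper88.D4

open Module Filter Topology IsLocalRing Pool.Agent.Helper37.SD Pool.Agent.Helper20.TS
  Pool.Agent.Helper11.SY Pool.Agent.Helper20.LT

/-- germs of dimension 4, `X₀` Q-factorial -/
theorem germ_qfac (hFMQ : S_FMQ)
    (R : Type) [CommRing R] [Algebra ℂ R] [IsDomain R] [IsLocalRing R]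
    [IsNoetherianRing R] [IsAdicComplete (maximalIdeal R) R]
    (hres : ∀ f : R, ∃ c : ℂ, f - algebraMap ℂ R c ∈ maximalIdeal R)
    (hdim : ringKrullDim R = 4)
    (S : Symp R 2) (w : CVal R) (A : ℝ) (hw : IsMinimizer S w A)
    (K : Type) [Field K] [Algebra ℂ K] (R₀ : Subalgebra ℂ K) (ξ : Derivation ℂ K K)
    (sym : ℝ → R → K) (hgr : GrL w R₀ ξ sym) (J : Bra K) (hJ : LeadTh S w A sym J)
    (hcone : Cone4 R₀ ξ J A) (v₀ : RVal K) (V : ℝ) (hmin : IsMinF R₀ ξ J v₀ A V)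
    (hX₀ : QFac R₀) : OrderGe S w (A / 2) := by
  have hm : ∃ f ∈ maximalIdeal R, f ≠ 0 := exists_nonzero (n := 2) (by norm_num) (by
    rw [hdim]
    rfl)
  obtain ⟨s, hs, f, g, hfg, hfgs⟩ :=
    s_ORD R hres S w A hw.disc hm K R₀ ξ sym hgr hcone.toIsCone
  obtain ⟨h, hh, -⟩ := Pool.Agent.Helper46.D4.s_POI Pool.Agent.Helper51.D4.s_IND
    Pool.Agent.Helper84.D4.s_THI R hres S w A hw.disc K R₀ ξ sym hgr J hJ hcone s hs
    ⟨f, g, hfg, hfgs⟩
  obtain ⟨ω, hreg, hcl, hhom, hω, -⟩ :=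
    Pool.Agent.Helper85.D4.s_OM K R₀ ξ J A s h hcone hh
  have key : A ≤ 2 * (A - s) := hFMQ K R₀ ξ J v₀ A V hcone hmin hX₀ ω (A - s) hreg hcl hhom hω
  intro f g
  refine (hs f g).trans (add_le_add le_rfl ?_)
  rw [WithTop.coe_le_coe]
  linarith

/-- The main theorem for germs of dimension 4. -/
theorem germ_four6 (hFMQ : S_FMQ)
    (R : Type) [CommRing R] [Algebra ℂ R] [IsDomain R] [IsLocalRing R]
    [IsNoetherianRing R] [IsAdicComplete (maximalIdeal R) R]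
    (hres : ∀ f : R, ∃ c : ℂ, f - algebraMap ℂ R c ∈ maximalIdeal R)
    (hdim : ringKrullDim R = 4)
    (S : Symp R 2) (w : CVal R) (A : ℝ) (hw : IsMinimizer S w A)
    (K : Type) [Field K] [Algebra ℂ K] (R₀ : Subalgebra ℂ K) (ξ : Derivation ℂ K K)
    (sym : ℝ → R → K) (hgr : GrL w R₀ ξ sym) (J : Bra K) (hJ : LeadTh S w A sym J)
    (hcone : Cone4 R₀ ξ J A) (v₀ : RVal K) (V : ℝ) (hmin : IsMinF R₀ ξ J v₀ A V)
    (hX₀ : QFac R₀ ∨ (CoxFG R₀ ∧
      ((∃ E : Derivation ℂ R R, (∀ f ∈ maximalIdeal R, E f ∈ maximalIdeal R) ∧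
          Liouville S E) ∨
        ∃ (r : ℕ) (H : Fin r → Derivation ℂ K K) (c : Fin r → ℝ),
          2 ≤ r ∧ Tor R₀ ξ H c))) : OrderGe S w (A / 2) := by
  rcases hX₀ with hX | ⟨hX, hT⟩
  · exact germ_qfac hFMQ R hres hdim S w A hw K R₀ ξ sym hgr J hJ hcone v₀ V hmin hX
  · exact germ_dimension_four5 R hres hdim S w A hw K R₀ ξ sym hgr J hJ hcone v₀ V hmin
      (Or.inr hX) hT

end Pool.Agent.Helper88.D4
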