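import Pool.Agent.Helper88.D4.Gm
import Pool.Agent.Helper11.D4.Ord
import Pool.Agent.Helper51.D4.Ind
import Pool.Agent.Helper84.D4.Thi
import Pool.Agent.Helper46.D4.Poi
import Pool.Agent.Helper85.D4.Om
import Pool.Agent.Helper79.D4.R1s
import Pool.Agent.Helper14.D4.T1s
import Pool.Agent.Helper1.D4.T2s
import Pool.Agent.Helper80.D4.B1s

/-!
# Project D4 (MP_e1889a_ag): closure of the form for germs
-/

set_option autoImplicit false

namespace Pool.Agent.Helper88.D4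

open Module Filter Topology IsLocalRing Pool.Agent.Helper37.SD Pool.Agent.Helper20.TS
  Pool.Agent.Helper11.SY Pool.Agent.Helper20.LT

/-- **Germs of dimension 4.** -/
theorem germ_dimension_four
    (R : Type) [CommRing R] [Algebra ℂ R] [IsDomain R] [IsLocalRing R]
    [IsNoetherianRing R] [IsAdicComplete (maximalIdeal R) R]
    (hres : ∀ f : R, ∃ c : ℂ, f - algebraMap ℂ R c ∈ maximalIdeal R)
    (hdim : ringKrullDim R = 4)
    (S : Symp R 2) (w : CVal R) (A : ℝ) (hw : IsMinimizer S w A)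
    (K : Type) [Field K] [Algebra ℂ K] (R₀ : Subalgebra ℂ K) (ξ : Derivation ℂ K K)
    (sym : ℝ → R → K) (hgr : GrL w R₀ ξ sym) (J : Bra K) (hJ : LeadTh S w A sym J)
    (hcone : Cone4 R₀ ξ J A) (v₀ : RVal K) (V : ℝ) (hmin : IsMinF R₀ ξ J v₀ A V)
    (hX₀ : QFac R₀ ∨ CoxFG R₀)
    (hT : (∃ E : Derivation ℂ R R, (∀ f ∈ maximalIdeal R, E f ∈ maximalIdeal R) ∧
        Liouville S E) ∨
      ((∃ b < A, OrderGe S w b) ∧ ∃ (r : ℕ) (H : Fin r → Derivation ℂ K K) (c : Fin r → ℝ),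
        2 ≤ r ∧ Tor R₀ ξ H c)) : OrderGe S w (A / 2) :=
  germ_four t_FMc Pool.Agent.Helper79.D4.s_R1s
    (Pool.Agent.Helper73.D4.s_R2 Pool.Agent.Helper12.D4.s_AI) Pool.Agent.Helper14.D4.s_T1s
    (Pool.Agent.Helper1.D4.s_T2s t_PF) Pool.Agent.Helper80.D4.s_B1s
    (Pool.Agent.Helper51.D4.s_Q Pool.Agent.Helper11.D4.s_EX1 Pool.Agent.Helper37.D4.s_HF)
    (Pool.Agent.Helper74.D4.s_P Pool.Agent.Helper11.D4.s_EX1 Pool.Agent.Helper11.D4.s_EX2
      Pool.Agent.Helper46.D4.s_LDfr0 Pool.Agent.Helper37.D4.s_T0 Pool.Agent.Helper37.D4.s_V3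
      Pool.Agent.Helper76.D4.s_UN Pool.Agent.Helper76.D4.s_CL Pool.Agent.Helper46.D4.s_REG0)
    Pool.Agent.Helper46.D4.s_Pn0 Pool.Agent.Helper76.D4.s_CF s_ORD
    (Pool.Agent.Helper46.D4.s_POI Pool.Agent.Helper51.D4.s_IND Pool.Agent.Helper84.D4.s_THI)
    Pool.Agent.Helper85.D4.s_OM R hres hdim S w A hw K R₀ ξ sym hgr J hJ hcone v₀ V hmin hX₀ hT

end Pool.Agent.Helper88.D4
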