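import Pool.Agent.Helper88.D4.Gm6
import Pool.Agent.Helper80.D4.Maj
import Pool.Agent.Helper51.D4.Cmp
import Pool.Agent.Helper74.D4.L2
import Pool.Agent.Helper74.D4.XI0
import Pool.Agent.Helper85.D4.NM
import Pool.Agent.Helper8.D4.LOne
import Pool.Agent.Helper8.D4.Prm
import Pool.Agent.Helper8.D4.Content
import Pool.Agent.Helper37.D4.DegB
import Pool.Agent.Helper48.D4.J2
import Pool.Agent.Helper79.D4.KH
import Pool.Agent.Helper79.D4.TW
import Pool.Agent.Helper12.D4.JET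
import Pool.Agent.Helper1.D4.J1
import Pool.Agent.Helper96.D4.J3
import Pool.Agent.Helper76.D4.PolLat
import Pool.Agent.Helper46.D4.Ker
import Pool.Agent.Helper87.D4.DVZ
import Pool.Agent.Helper38.D4.UNT
import Pool.Agent.Helper38.D4.W0

/-!
# Project D4 (MP_e1889a_ag): closure of stage 6
-/

set_option autoImplicit false

namespace Pool.Agent.Helper88.D4

open Module Filter Topology IsLocalRing Pool.Agent.Helper37.SD Pool.Agent.Helper20.TS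
  Pool.Agent.Helper11.SY Pool.Agent.Helper20.LT

theorem t_Q : S_Q :=
  Pool.Agent.Helper51.D4.s_Q Pool.Agent.Helper11.D4.s_EX1 Pool.Agent.Helper37.D4.s_HF

theorem t_DEG : S_DEG :=
  Pool.Agent.Helper37.D4.s_DEG Pool.Agent.Helper79.D4.s_TW Pool.Agent.Helper87.D4.DVZ.s_DVZ

theorem t_L2 : S_L2 :=
  Pool.Agent.Helper74.D4.s_L2 Pool.Agent.Helper79.D4.s_KH t_Q t_DEG Pool.Agent.Helper11.D4.s_EX1
    Pool.Agent.Helper37.D4.s_V3

theorem t_CMP : S_CMP :=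
  Pool.Agent.Helper51.D4.s_CMP Pool.Agent.Helper76.D4.s_POL Pool.Agent.Helper37.D4.s_HF

theorem t_MAJ : S_MAJ := Pool.Agent.Helper80.D4.s_MAJ t_CMP t_L2

theorem t_NM : S_NM :=
  Pool.Agent.Helper85.D4.s_NM Pool.Agent.Helper76.D4.s_POL Pool.Agent.Helper76.D4.s_LAT
    Pool.Agent.Helper8.D4.s_PRM Pool.Agent.Helper8.D4.s_CON

theorem t_L1 : S_L1 := Pool.Agent.Helper8.D4.s_L1 t_NM t_MAJ

theorem t_JET : S_JET :=
  Pool.Agent.Helper12.D4.s_JET Pool.Agent.Helper1.D4.s_J1 Pool.Agent.Helper48.D4.s_J2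
    Pool.Agent.Helper96.D4.s_J3

theorem t_XI0 : S_XI0 :=
  Pool.Agent.Helper74.D4.s_XI0 Pool.Agent.Helper38.D4.s_UNT
    (Pool.Agent.Helper38.W0.s_W0 Pool.Agent.Helper12.D4.s_AI Pool.Agent.Helper11.D4.s_EX1)
    Pool.Agent.Helper13.D4.s_WN Pool.Agent.Helper13.D4.s_WR Pool.Agent.Helper13.D4.s_WW
    Pool.Agent.Helper13.D4.s_WV Pool.Agent.Helper48.D4.s_CNT t_Q t_L2
    Pool.Agent.Helper11.D4.s_EX1

theorem t_FMQ : S_FMQ := s_FMQ Pool.Agent.Helper46.D4.Ker.s_KER t_XI0 t_L1 t_JET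

/-- **Germs of dimension 4.** -/
theorem germ_dimension_four6
    (R : Type) [CommRing R] [Algebra ℂ R] [IsDomain R] [IsLocalRing R]
    [IsNoetherianRing R] [IsAdicComplete (maximalIdeal R) R]
    (hres : ∀ f : R, ∃ c : ℂ, f - algebraMap ℂ R c ∈ maximalIdeal R)
    (hdim : ringKrullDim R = 4)
    (S : Symp R 2) (w : CVal R) (A : ℝ) (hw : IsMinimizer S w A)
    (K : Type) [Field K] [Algebra ℂ K] (R₀ : Subalgebra ℂ K) (ξ : Derivation ℂ K K)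
    (sym : ℝ → R → K) (hgr : GrL w R₀ ξ sym) (J : Bra K) (hJ : LeadTh S w A sym J)
    (hcone : Cone4 R₀ ξ J A) (v₀ : RVal K) (V : ℝ) (hmin : IsMinF R₀ ξ J v₀ A V)
    (hX₀ : QFac R₀ ∨ (CoxFG R₀ ∧
      ((∃ E : Derivation ℂ R R, (∀ f ∈ maximalIdeal R, E f ∈ maximalIdeal R) ∧
          Liouville S E) ∨
        ∃ (r : ℕ) (H : Fin r → Derivation ℂ K K) (c : Fin r → ℝ),
          2 ≤ r ∧ Tor R₀ ξ H c))) : OrderGe S w (A / 2) :=
  germ_four6 t_FMQ R hres hdim S w A hw K R₀ ξ sym hgr J hJ hcone v₀ V hmin hX₀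

end Pool.Agent.Helper88.D4
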