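import Pool.Agent.Helper88.D4.Gm7
import Pool.Agent.Helper76.D4.Clo7

/-!
# Project D4 (MP_e1889a_ag): closure of stage 7
-/

set_option autoImplicit false

namespace Pool.Agent.Helper88.D4

open Module Filter Topology IsLocalRing Pool.Agent.Helper37.SD Pool.Agent.Helper20.TS
  Pool.Agent.Helper11.SY Pool.Agent.Helper20.LT

/-- **Germs of dimension 4.** -/
theorem germ_dimension_four7
    (R : Type) [CommRing R] [Algebra ℂ R] [IsDomain R] [IsLocalRing R]
    [IsNoetherianRing R] [IsAdicComplete (maximalIdeal R) R]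
    (hres : ∀ f : R, ∃ c : ℂ, f - algebraMap ℂ R c ∈ maximalIdeal R)
    (hdim : ringKrullDim R = 4)
    (S : Symp R 2) (w : CVal R) (A : ℝ) (hw : IsMinimizer S w A)
    (K : Type) [Field K] [Algebra ℂ K] (R₀ : Subalgebra ℂ K) (ξ : Derivation ℂ K K)
    (sym : ℝ → R → K) (hgr : GrL w R₀ ξ sym) (J : Bra K) (hJ : LeadTh S w A sym J)
    (hcone : Cone4 R₀ ξ J A) (v₀ : RVal K) (V : ℝ) (hmin : IsMinF R₀ ξ J v₀ A V)
    (hX₀ : QFac R₀ ∨ CoxFG R₀) : OrderGe S w (A / 2) :=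
  germ_four7 Pool.Agent.Helper76.D4.t_FMX R hres hdim S w A hw K R₀ ξ sym hgr J hJ hcone v₀ V hmin
    hX₀

end Pool.Agent.Helper88.D4
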